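import Mathlib
import Pool.Agent.helper87.FourThirds

/-! Basic quantities attached to `⌊(4/3)^n⌋`. -/

namespace Pool.Agent.helper74.FT

open Pool.Agent.helper87 (fa fa_le lt_fa fa_step_up fa_step_down fa_mul_le lt_mul_fa)

/-- `b n = ⌊(4/3)^n⌋ + 1`. -/
def b (n : ℕ) : ℤ := (fa n : ℤ) + 1

/-- `dl n = b n - (4/3)^n`, in `(0, 1]`. -/
noncomputable def dl (n : ℕ) : ℝ := (b n : ℝ) - (4 / 3 : ℝ) ^ n

/-- `e n = 4 b n - 3 b (n+1)`. -/
def e (n : ℕ) : ℤ := 4 * b n - 3 * b (n + 1)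

/-- `D n = (3/4)^n dl n`. -/
noncomputable def D (n : ℕ) : ℝ := (3 / 4 : ℝ) ^ n * dl n

/-- the indices with `e n ≠ 0`. -/
def J (n : ℕ) : Prop := e n ≠ 0

instance : DecidablePred J := fun n => inferInstanceAs (Decidable (e n ≠ 0))

theorem dl_pos (n : ℕ) : 0 < dl n := by
  unfold dl b
  have := lt_fa n
  push_cast
  linarith

theorem dl_le_one (n : ℕ) : dl n ≤ 1 := by
  unfold dl b
  have := fa_le n
  push_cast
  linarith

theorem e_eq (n : ℕ) : (e n : ℝ) = 4 * dl n - 3 * dl (n + 1) := by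
  unfold e dl
  push_cast
  rw [pow_succ]
  ring

theorem e_le (n : ℕ) : e n ≤ 3 := by
  have h := e_eq n
  have h1 := dl_le_one n
  have h2 := dl_pos (n + 1)
  have : (e n : ℝ) < 4 := by linarith
  have : e n < 4 := by exact_mod_cast this
  omega

theorem e_ge (n : ℕ) : -2 ≤ e n := by
  have h := e_eq n
  have h1 := dl_pos n
  have h2 := dl_le_one (n + 1)
  have : (-3 : ℝ) < (e n : ℝ) := by linarith
  have : -3 < e n := by exact_mod_cast this
  omega

theorem D_pos (n : ℕ) : 0 < D n := mul_pos (by positivity) (dl_pos n)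

theorem D_le (n : ℕ) : D n ≤ (3 / 4 : ℝ) ^ n := by
  unfold D
  have := dl_le_one n
  have h : (0 : ℝ) < (3 / 4 : ℝ) ^ n := by positivity
  nlinarith

theorem dl_ge (n : ℕ) : (1 / 3 : ℝ) ^ n ≤ dl n := by
  have h := lt_mul_fa n
  have h1 : 4 ^ n + 1 ≤ 3 ^ n * (fa n + 1) := h
  have h2 : ((4 : ℝ) ^ n + 1) ≤ 3 ^ n * ((fa n : ℝ) + 1) := by exact_mod_cast h1
  unfold dl b
  push_cast
  rw [div_pow, div_pow, one_pow]
  have h3 : (0 : ℝ) < 3 ^ n := by positivity
  rw [div_le_iff₀ h3, sub_mul, div_mul_cancel₀ _ h3.ne']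
  linarith

theorem D_ge (n : ℕ) : (1 / 4 : ℝ) ^ n ≤ D n := by
  unfold D
  have := dl_ge n
  have h : (0 : ℝ) < (3 / 4 : ℝ) ^ n := by positivity
  calc (1 / 4 : ℝ) ^ n = (3 / 4 : ℝ) ^ n * (1 / 3 : ℝ) ^ n := by rw [← mul_pow]; norm_num
    _ ≤ _ := mul_le_mul_of_nonneg_left this h.le

theorem D_sub (n : ℕ) : D n - D (n + 1) = (3 / 4 : ℝ) ^ n * e n / 4 := by
  rw [e_eq]
  unfold D
  rw [pow_succ]
  ring

theorem D_zero : D 0 = 1 := by
  unfold D dl b
  have : fa 0 = 1 := by unfold fa; norm_num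
  rw [this]
  norm_num

theorem D_one : D 1 = 1 / 2 := by
  unfold D dl b
  have : fa 1 = 1 := by unfold fa; norm_num
  rw [this]
  norm_num

theorem J_zero : J 0 := by
  unfold J e b
  have h0 : fa 0 = 1 := by unfold fa; norm_num
  have h1 : fa 1 = 1 := by unfold fa; norm_num
  rw [h0, h1]
  norm_num

theorem D_const {n m : ℕ} (hnm : n ≤ m) (h : ∀ i, n ≤ i → i < m → ¬ J i) : D n = D m := by
  induction m, hnm using Nat.le_induction with
  | base => rfl
  | succ m hm ih =>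
    rw [ih (fun i hi hi' => h i hi (by omega))]
    have h0 : e m = 0 := not_not.1 (h m hm (by omega))
    have := D_sub m
    rw [h0] at this
    push_cast at this
    linarith

theorem D_le_of_free {n m : ℕ} (hnm : n ≤ m) (h : ∀ i, n ≤ i → i < m → ¬ J i) :
    D n ≤ (3 / 4 : ℝ) ^ m := by
  rw [D_const hnm h]
  exact D_le m

/-- If `D n` is large then `J` has an element soon after `n`. -/
theorem exists_J_of_D {n m : ℕ} (hnm : n ≤ m) (h : (3 / 4 : ℝ) ^ m ≤ D n) :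
    ∃ i, n ≤ i ∧ i ≤ m ∧ J i := by
  by_contra hcon
  push Not at hcon
  have h1 := D_le_of_free (n := n) (m := m + 1) (by omega) (fun i hi hi' => hcon i hi (by omega))
  have h2 : (3 / 4 : ℝ) ^ (m + 1) < (3 / 4 : ℝ) ^ m := by
    rw [pow_succ]
    have : (0 : ℝ) < (3 / 4 : ℝ) ^ m := by positivity
    linarith
  linarith

/-- number of elements of `J` in `[m, n)` -/
def cJ (m n : ℕ) : ℕ := ((Finset.Ico m n).filter J).card

theorem cJ_mono {m n m' n' : ℕ} (h1 : m' ≤ m) (h2 : n ≤ n') : cJ m n ≤ cJ m' n' := by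
  apply Finset.card_le_card
  intro i hi
  rw [Finset.mem_filter, Finset.mem_Ico] at hi ⊢
  exact ⟨⟨by omega, by omega⟩, hi.2⟩

theorem cJ_add {m n k : ℕ} (h1 : m ≤ n) (h2 : n ≤ k) : cJ m n + cJ n k = cJ m k := by
  unfold cJ
  rw [← Finset.card_union_of_disjoint, ← Finset.filter_union, Finset.Ico_union_Ico_eq_Ico h1 h2]
  apply Finset.disjoint_filter_filter
  exact Finset.Ico_disjoint_Ico_consecutive m n k

theorem cJ_one {m : ℕ} (h : J m) : cJ m (m + 1) = 1 := by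
  unfold cJ
  rw [Nat.Ico_succ_singleton, Finset.filter_singleton, if_pos h, Finset.card_singleton]

theorem cJ_pos {m n : ℕ} (h : J m) (hmn : m < n) : 1 ≤ cJ m n := by
  have := cJ_mono (m := m) (n := m + 1) (m' := m) (n' := n) le_rfl hmn
  rw [cJ_one h] at this
  exact this

theorem dl_rec (n : ℕ) : dl n ≤ (if J n then 4 else 0) + 3 * (dl (n + 1) - dl n) := by
  have h := e_eq n
  by_cases hJ : J n
  · rw [if_pos hJ]
    have h1 := dl_le_one n
    have h2 := dl_pos (n + 1)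
    linarith
  · rw [if_neg hJ]
    have h0 : e n = 0 := not_not.1 hJ
    rw [h0] at h
    push_cast at h
    linarith

theorem sum_dl' (Y : ℕ) :
    ∑ m ∈ Finset.Ico 1 (Y + 1), dl m ≤ 4 * (cJ 1 (Y + 1) : ℝ) + 3 * (dl (Y + 1) - dl 1) := by
  induction Y with
  | zero => simp [cJ]
  | succ Y ih =>
    rw [Finset.sum_Ico_succ_top (by omega)]
    have h1 := dl_rec (Y + 1)
    have h2 : cJ 1 (Y + 1 + 1) = cJ 1 (Y + 1) + (if J (Y + 1) then 1 else 0) := by
      rw [← cJ_add (m := 1) (n := Y + 1) (k := Y + 1 + 1) (by omega) (by omega)]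
      congr 1
      unfold cJ
      rw [Nat.Ico_succ_singleton, Finset.filter_singleton]
      split_ifs <;> simp
    rw [h2]
    push_cast
    split_ifs at h1 ⊢ <;> linarith

theorem sum_dl (Y : ℕ) :
    ∑ m ∈ Finset.Ico 1 (Y + 1), dl m ≤ 4 * (cJ 1 (Y + 1) : ℝ) + 3 := by
  have h := sum_dl' Y
  have h1 := dl_le_one (Y + 1)
  have h2 := dl_pos 1
  linarith

theorem sum_dl_le {Y s : ℕ} (hs : cJ 0 (Y + 1) ≤ s) :
    ∑ m ∈ Finset.Ico 1 (Y + 1), dl m ≤ 4 * (s : ℝ) := by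
  have h := sum_dl Y
  have h2 := cJ_add (m := 0) (n := 1) (k := Y + 1) (by omega) (by omega)
  have h3 : cJ 0 1 = 1 := cJ_one J_zero
  have h4 : cJ 1 (Y + 1) + 1 ≤ s := by omega
  have h5 : (cJ 1 (Y + 1) : ℝ) + 1 ≤ s := by exact_mod_cast h4
  linarith

end Pool.Agent.helper74.FT
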