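import Pool.Agent.helper74.FT.Restart

/-! Claim A: inside the window of a restart there are further restarts. -/

namespace Pool.Agent.helper74.FT

/-! ### Blocks -/

section Blocks

variable (A : ℕ → Prop) [DecidablePred A]

theorem nx_exists (Z κ : ℕ) : ∃ m, κ < m ∧ (Z ≤ m ∨ A m) :=
  ⟨max Z (κ + 1), by omega, Or.inl (le_max_left _ _)⟩

/-- the next element of `A` after `κ`, or `Z`. -/
def nx (Z κ : ℕ) : ℕ := Nat.find (nx_exists A Z κ)

theorem lt_nx (Z κ : ℕ) : κ < nx A Z κ := (Nat.find_spec (nx_exists A Z κ)).1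

theorem nx_le {Z κ : ℕ} (h : κ < Z) : nx A Z κ ≤ Z :=
  Nat.find_min' (nx_exists A Z κ) ⟨h, Or.inl le_rfl⟩

theorem nx_le_of {Z κ κ' : ℕ} (h : κ < κ') (h' : A κ') : nx A Z κ ≤ κ' :=
  Nat.find_min' (nx_exists A Z κ) ⟨h, Or.inr h'⟩

theorem nx_free {Z κ i : ℕ} (h1 : κ < i) (h2 : i < nx A Z κ) : ¬ A i := fun hi =>
  Nat.find_min (nx_exists A Z κ) h2 ⟨h1, Or.inr hi⟩

theorem sum_blocks (h0 : A 0) (Z : ℕ) :
    Z ≤ ∑ κ ∈ (Finset.range Z).filter A, (nx A Z κ - κ) := by
  classical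
  have hsub : Finset.range Z ⊆ ((Finset.range Z).filter A).biUnion
      (fun κ => Finset.Ico κ (nx A Z κ)) := by
    intro m hm
    rw [Finset.mem_range] at hm
    rw [Finset.mem_biUnion]
    refine ⟨Nat.findGreatest A m, ?_, ?_⟩
    · rw [Finset.mem_filter, Finset.mem_range]
      exact ⟨lt_of_le_of_lt (Nat.findGreatest_le m) hm,
        Nat.findGreatest_spec (P := A) (Nat.zero_le m) h0⟩
    · rw [Finset.mem_Ico]
      refine ⟨Nat.findGreatest_le m, ?_⟩
      by_contra hcon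
      push Not at hcon
      have hs := Nat.find_spec (nx_exists A Z (Nat.findGreatest A m))
      change _ ∧ (Z ≤ nx A Z (Nat.findGreatest A m) ∨ A (nx A Z (Nat.findGreatest A m))) at hs
      rcases hs.2 with h1 | h1
      · omega
      · exact Nat.findGreatest_is_greatest (lt_nx A Z _) hcon h1
  calc Z = (Finset.range Z).card := (Finset.card_range Z).symm
    _ ≤ _ := Finset.card_le_card hsub
    _ ≤ ∑ κ ∈ (Finset.range Z).filter A, (Finset.Ico κ (nx A Z κ)).card := Finset.card_biUnion_le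
    _ = _ := by
        apply Finset.sum_congr rfl
        intro κ _
        rw [Nat.card_Ico]

end Blocks

/-- `σ` is good at level `p`. -/
def Good (a' E ymax T1 σ p : ℕ) : Prop :=
  ∃ B : Finset ℕ, B.card ≤ p * E ∧ ∀ y, 1 ≤ y → y ≤ ymax → y ∉ B →
    (3 / 4 : ℝ) ^ (σ + T1 + p * (a' + 4) + 5 * y) ≤ D (σ + y)

theorem good_base {a' E ymax T1 σ : ℕ} (h : 4 * σ ≤ T1) (p : ℕ) : Good a' E ymax T1 σ p := by
  refine ⟨∅, by simp, ?_⟩
  intro y _ _ _
  calc (3 / 4 : ℝ) ^ (σ + T1 + p * (a' + 4) + 5 * y) ≤ (3 / 4 : ℝ) ^ (5 * (σ + y)) :=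
        pow_le_pow_of_le_one (by norm_num) (by norm_num) (by
          have := Nat.zero_le (p * (a' + 4))
          omega)
    _ ≤ (1 / 4 : ℝ) ^ (σ + y) := pow_five _
    _ ≤ _ := D_ge _

theorem good_step {x κ a' E ymax T1 σ p P L Y : ℕ} (hκ : 1 ≤ κ)
    (hE : (Exc x Y a').card ≤ E) (hT1 : (P + 1) * (a' + 4) + 5 * ymax + 8 ≤ T1) (hp : p + 1 ≤ P)
    (H1 : ∀ x', J x' → x < x' → x' < x + Y → (3 / 4 : ℝ) ^ a' ≤ dl x')
    (hJ : J (x + κ)) (hfree : ∀ i, x + κ < i → i < x + κ + L → ¬ J i)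
    (hLY : κ + L ≤ Y) (hL : σ + 2 * T1 ≤ L)
    (hg : Good a' E ymax T1 σ p) : Good a' E ymax T1 (κ + σ) (p + 1) := by
  classical
  obtain ⟨B, hB, hD⟩ := hg
  refine ⟨B ∪ (Exc x Y a').image (fun R => R - (x + κ + σ)), ?_, ?_⟩
  · calc _ ≤ B.card + ((Exc x Y a').image (fun R => R - (x + κ + σ))).card :=
          Finset.card_union_le _ _
      _ ≤ p * E + E := Nat.add_le_add hB (le_trans Finset.card_image_le hE)
      _ = (p + 1) * E := by ring
  · intro y hy1 hy2 hy3
    rw [Finset.mem_union, not_or] at hy3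
    have h1 := hD y hy1 hy2 hy3.1
    have hmul : (p + 2) * (a' + 4) ≤ (P + 1) * (a' + 4) := Nat.mul_le_mul_right _ (by omega)
    have hmul2 : (p + 2) * (a' + 4) = p * (a' + 4) + 2 * a' + 8 := by ring
    have h2 : x + κ + (σ + y) ∉ Exc x Y a' := by
      intro h
      apply hy3.2
      rw [Finset.mem_image]
      exact ⟨x + κ + (σ + y), h, by omega⟩
    have h3 : 6 * (3 / 4 : ℝ) ^ (L - a') ≤ D (σ + y) := by
      refine le_trans ?_ h1
      calc 6 * (3 / 4 : ℝ) ^ (L - a')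
          ≤ 6 * (3 / 4 : ℝ) ^ ((σ + T1 + p * (a' + 4) + 5 * y) + 7) := by
            apply mul_le_mul_of_nonneg_left _ (by norm_num)
            exact pow_le_pow_of_le_one (by norm_num) (by norm_num) (by omega)
        _ = (3 / 4 : ℝ) ^ (σ + T1 + p * (a' + 4) + 5 * y) * (6 * (3 / 4 : ℝ) ^ 7) := by
            rw [pow_add]; ring
        _ ≤ (3 / 4 : ℝ) ^ (σ + T1 + p * (a' + 4) + 5 * y) * 1 := by
            apply mul_le_mul_of_nonneg_left _ (by positivity)
            norm_num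
        _ = _ := mul_one _
    have h4 := transfer (x := x) (κ := κ) (y := σ + y) (a' := a') (L := L) (Y := Y) hκ (by omega)
      (by omega) (by omega) (by omega) H1 h2 hJ hfree h3
    rw [Nat.add_assoc κ σ y]
    refine le_trans ?_ h4
    calc (3 / 4 : ℝ) ^ (κ + σ + T1 + (p + 1) * (a' + 4) + 5 * y)
        = (3 / 4 : ℝ) ^ (κ + a' + 4) * (3 / 4 : ℝ) ^ (σ + T1 + p * (a' + 4) + 5 * y) := by
          rw [← pow_add]; congr 1; ring
      _ ≤ _ := mul_le_mul_of_nonneg_left h1 (by positivity)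

open Classical in
/-- number of good `σ < Z` -/
noncomputable def gp (a' E ymax T1 p Z : ℕ) : ℕ :=
  ((Finset.range Z).filter (fun σ => Good a' E ymax T1 σ p)).card

/-- The counting induction. -/
theorem count_ind {x a a' E ymax T1 P Y s : ℕ} (hJx : J x) (hxa : dl x < (3 / 4 : ℝ) ^ a)
    (haY : 5 * Y + 10 ≤ a)
    (hE : (Exc x Y a').card ≤ E) (hT1 : (P + 1) * (a' + 4) + 5 * ymax + 8 ≤ T1)
    (H1 : ∀ x', J x' → x < x' → x' < x + Y → (3 / 4 : ℝ) ^ a' ≤ dl x')
    (hs : cJ x (x + Y) ≤ s) {c : ℝ} (hc0 : 0 ≤ c)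
    (hc : c ^ 2 * (1920 * ((s : ℝ) + 1)) ≤ 2 * T1) :
    ∀ p, p ≤ P → ∀ Z : ℕ, Z ≤ Y → (Z : ℝ) ≤ (100 / 81 : ℝ) ^ p → 2 * T1 ≤ Z →
      ∀ v : ℝ, 0 < v → (Z : ℝ) ≤ v ^ 2 → c * Z ≤ v * (gp a' E ymax T1 p Z : ℝ) := by
  classical
  have hT8 : 8 ≤ T1 := by omega
  intro p
  induction p with
  | zero =>
    intro _ Z _ hZ1 hZ2
    exfalso
    have h1 : (Z : ℝ) ≤ 1 := by simpa using hZ1
    have h2 : Z ≤ 1 := by exact_mod_cast h1
    omega
  | succ p ih =>
    intro hp Z hZY hZp hZΘ v hv hZv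
    by_cases hsmall : Z ≤ 30 * (s + 1) * (2 * T1)
    · -- small case
      have hg : (T1 : ℝ) / 4 ≤ (gp a' E ymax T1 (p + 1) Z : ℝ) := by
        have h1 : Finset.range (T1 / 4 + 1) ⊆
            (Finset.range Z).filter (fun σ => Good a' E ymax T1 σ (p + 1)) := by
          intro σ hσ
          rw [Finset.mem_range] at hσ
          rw [Finset.mem_filter, Finset.mem_range]
          exact ⟨by omega, good_base (by omega) _⟩
        have h2 := Finset.card_le_card h1
        rw [Finset.card_range] at h2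
        have h3 : T1 ≤ 4 * gp a' E ymax T1 (p + 1) Z := by
          unfold gp
          omega
        have h4 : (T1 : ℝ) ≤ 4 * (gp a' E ymax T1 (p + 1) Z : ℝ) := by exact_mod_cast h3
        linarith
      have hsm : (Z : ℝ) ≤ 30 * ((s : ℝ) + 1) * (2 * T1) := by exact_mod_cast hsmall
      have h1 : (c * Z) ^ 2 ≤ (v * (T1 / 4)) ^ 2 := by
        have hZ0 : (0 : ℝ) ≤ Z := Nat.cast_nonneg _
        calc (c * Z) ^ 2 = c ^ 2 * Z * Z := by ring
          _ ≤ c ^ 2 * (30 * ((s : ℝ) + 1) * (2 * T1)) * v ^ 2 := by gcongr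
          _ = (c ^ 2 * (1920 * ((s : ℝ) + 1))) * (2 * T1) / 64 * v ^ 2 := by ring
          _ ≤ (2 * T1) * (2 * T1) / 64 * v ^ 2 := by gcongr
          _ = (v * (T1 / 4)) ^ 2 := by ring
      have h2 : c * Z ≤ v * (T1 / 4) := by
        apply le_of_sq_le_sq h1
        positivity
      refine le_trans h2 ?_
      exact mul_le_mul_of_nonneg_left hg hv.le
    · push Not at hsmall
      -- block decomposition
      obtain ⟨A, hA⟩ : ∃ A : ℕ → Prop, A = fun κ => J (x + κ) := ⟨_, rfl⟩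
      have hAκ : ∀ κ, A κ ↔ J (x + κ) := fun κ => by rw [hA]
      have hA0 : A 0 := by rw [hAκ]; exact hJx
      obtain ⟨L, hL⟩ : ∃ L : ℕ → ℕ, L = fun κ => nx A Z κ - κ := ⟨_, rfl⟩
      have hLκ : ∀ κ, L κ = nx A Z κ - κ := fun κ => by rw [hL]
      obtain ⟨K, hK⟩ : ∃ K : Finset ℕ, K = ((Finset.range Z).filter A).filter
        (fun κ => 1 ≤ κ ∧ 2 * (2 * T1) ≤ L κ) := ⟨_, rfl⟩
      have hKmem : ∀ κ ∈ K, κ < Z ∧ A κ ∧ 1 ≤ κ ∧ 2 * (2 * T1) ≤ L κ := by
        intro κ hκ
        rw [hK, Finset.mem_filter, Finset.mem_filter, Finset.mem_range] at hκ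
        exact ⟨hκ.1.1, hκ.1.2, hκ.2.1, hκ.2.2⟩
      have hLZ : ∀ κ, κ < Z → κ + L κ ≤ Z := by
        intro κ hκ
        have h1 := nx_le A hκ
        have h2 := lt_nx A Z κ
        rw [hLκ]
        omega
      -- bound on block lengths
      have hL5 : ∀ κ, κ < Z → 1 ≤ κ → L κ ≤ 4 * κ + 4 := by
        intro κ hκ hκ1
        obtain ⟨i, hi1, hi2, hi3⟩ := G2 (κ := κ + 1) hJx hxa (by omega) (by omega)
        obtain ⟨m, rfl⟩ : ∃ m, i = x + m := ⟨i - x, by omega⟩
        have h1 : nx A Z κ ≤ m := nx_le_of A (by omega) ((hAκ m).2 hi3)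
        rw [hLκ]
        omega
      have hL0 : L 0 ≤ 4 := by
        obtain ⟨i, hi1, hi2, hi3⟩ := G2 (κ := 1) hJx hxa (by omega) (by omega)
        obtain ⟨m, rfl⟩ : ∃ m, i = x + m := ⟨i - x, by omega⟩
        have h1 : nx A Z 0 ≤ m := nx_le_of A (by omega) ((hAκ m).2 hi3)
        rw [hLκ]
        omega
      -- the sum of the reduced lengths
      have hsum : Z ≤ 4 + (∑ κ ∈ K, (L κ - 2 * T1)) + 2 * (2 * T1) * s := by
        have h1 := sum_blocks A hA0 Z
        have h2 : ∑ κ ∈ (Finset.range Z).filter A, (nx A Z κ - κ) ≤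
            ∑ κ ∈ (Finset.range Z).filter A, ((if κ = 0 then 4 else 0) +
              (if 1 ≤ κ ∧ 2 * (2 * T1) ≤ L κ then (L κ - 2 * T1) else 0) + 2 * (2 * T1)) := by
          apply Finset.sum_le_sum
          intro κ hκ
          rw [Finset.mem_filter, Finset.mem_range] at hκ
          rw [← hLκ]
          by_cases h0 : κ = 0
          · rw [if_pos h0, h0]
            omega
          · rw [if_neg h0]
            split_ifs with h3
            · omega
            · omega
        rw [Finset.sum_add_distrib, Finset.sum_add_distrib, Finset.sum_const, smul_eq_mul,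
          ← Finset.sum_filter, ← Finset.sum_filter, ← hK] at h2
        have h3 : ∑ κ ∈ ((Finset.range Z).filter A).filter (fun κ => κ = 0), 4 ≤ 4 := by
          rw [Finset.sum_const, smul_eq_mul]
          have : (((Finset.range Z).filter A).filter (fun κ => κ = 0)).card ≤ 1 := by
            apply Finset.card_le_one.2
            intro u hu v hv
            rw [Finset.mem_filter] at hu hv
            rw [hu.2, hv.2]
          omega
        have h4 : ((Finset.range Z).filter A).card ≤ s := by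
          refine le_trans ?_ hs
          unfold cJ
          apply Finset.card_le_card_of_injOn (fun κ => x + κ)
          · intro κ hκ
            rw [Finset.mem_coe, Finset.mem_filter, Finset.mem_range] at hκ
            rw [Finset.mem_coe, Finset.mem_filter, Finset.mem_Ico]
            refine ⟨⟨?_, ?_⟩, (hAκ κ).1 hκ.2⟩
            · show x ≤ x + κ
              omega
            · show x + κ < x + Y
              omega
          · intro u _ v _ huv
            have : x + u = x + v := huv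
            omega
        have h5 : ((Finset.range Z).filter A).card * (2 * (2 * T1)) ≤ 2 * (2 * T1) * s := by
          rw [mul_comm]
          exact Nat.mul_le_mul_left _ h4
        omega
      -- the union
      have hunion : ∑ κ ∈ K, gp a' E ymax T1 p (L κ - 2 * T1) ≤ gp a' E ymax T1 (p + 1) Z := by
        have h1 : ∀ κ ∈ K, gp a' E ymax T1 p (L κ - 2 * T1) =
            (((Finset.range (L κ - 2 * T1)).filter (fun σ => Good a' E ymax T1 σ p)).image
              (fun σ => κ + σ)).card := by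
          intro κ _
          unfold gp
          rw [Finset.card_image_of_injective]
          intro u v huv
          have : κ + u = κ + v := huv
          omega
        rw [Finset.sum_congr rfl h1, ← Finset.card_biUnion]
        · unfold gp
          apply Finset.card_le_card
          intro τ hτ
          rw [Finset.mem_biUnion] at hτ
          obtain ⟨κ, hκ, hτ⟩ := hτ
          rw [Finset.mem_image] at hτ
          obtain ⟨σ, hσ, rfl⟩ := hτ
          rw [Finset.mem_filter, Finset.mem_range] at hσ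
          obtain ⟨k1, k2, k3, k4⟩ := hKmem κ hκ
          have k5 := hLZ κ k1
          rw [Finset.mem_filter, Finset.mem_range]
          refine ⟨by omega, ?_⟩
          apply good_step (L := L κ) (Y := Y) k3 hE hT1 hp H1 ((hAκ κ).1 k2) _ (by omega)
            (by omega) hσ.2
          intro i hi1 hi2
          obtain ⟨m, rfl⟩ : ∃ m, i = x + m := ⟨i - x, by omega⟩
          rw [← hAκ]
          have := hLκ κ
          exact nx_free A (Z := Z) (κ := κ) (by omega) (by omega)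
        · intro κ hκ κ' hκ' hne
          rw [Function.onFun, Finset.disjoint_left]
          intro τ hτ hτ'
          rw [Finset.mem_image] at hτ hτ'
          obtain ⟨σ, hσ, rfl⟩ := hτ
          obtain ⟨σ', hσ', heq⟩ := hτ'
          rw [Finset.mem_filter, Finset.mem_range] at hσ hσ'
          obtain ⟨k1, k2, k3, k4⟩ := hKmem κ (Finset.mem_coe.1 hκ)
          obtain ⟨l1, l2, l3, l4⟩ := hKmem κ' (Finset.mem_coe.1 hκ')
          have m1 := hLκ κ
          have m2 := hLκ κ'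
          rcases lt_or_gt_of_ne hne with h | h
          · have := nx_le_of A (Z := Z) h l2
            omega
          · have := nx_le_of A (Z := Z) h k2
            omega
      -- apply the induction hypothesis
      have hind : ∀ κ ∈ K, c * ((L κ - 2 * T1 : ℕ) : ℝ) ≤
          (9 / 10 * v) * (gp a' E ymax T1 p (L κ - 2 * T1) : ℝ) := by
        intro κ hκ
        obtain ⟨k1, k2, k3, k4⟩ := hKmem κ hκ
        have k5 := hLZ κ k1
        have k6 := hL5 κ k1 k3
        have k7 : 5 * (L κ - 2 * T1) ≤ 4 * Z := by omega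
        have k8 : (5 : ℝ) * ((L κ - 2 * T1 : ℕ) : ℝ) ≤ 4 * Z := by exact_mod_cast k7
        have hZ0 : (0 : ℝ) ≤ Z := Nat.cast_nonneg _
        apply ih (by omega) (L κ - 2 * T1) (by omega) _ (by omega) (9 / 10 * v) (by positivity)
        · nlinarith
        · have : (100 / 81 : ℝ) ^ (p + 1) = (100 / 81 : ℝ) ^ p * (100 / 81) := pow_succ _ _
          rw [this] at hZp
          linarith
      have hS1 : c * ((∑ κ ∈ K, (L κ - 2 * T1) : ℕ) : ℝ) ≤
          (9 / 10 * v) * (gp a' E ymax T1 (p + 1) Z : ℝ) := by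
        calc c * ((∑ κ ∈ K, (L κ - 2 * T1) : ℕ) : ℝ)
            = ∑ κ ∈ K, c * ((L κ - 2 * T1 : ℕ) : ℝ) := by
              rw [Nat.cast_sum, Finset.mul_sum]
          _ ≤ ∑ κ ∈ K, (9 / 10 * v) * (gp a' E ymax T1 p (L κ - 2 * T1) : ℝ) :=
              Finset.sum_le_sum hind
          _ = (9 / 10 * v) * ((∑ κ ∈ K, gp a' E ymax T1 p (L κ - 2 * T1) : ℕ) : ℝ) := by
              rw [Nat.cast_sum, Finset.mul_sum]
          _ ≤ _ := by
              apply mul_le_mul_of_nonneg_left _ (by positivity)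
              exact_mod_cast hunion
      have hS2 : (9 / 10 : ℝ) * Z ≤ ((∑ κ ∈ K, (L κ - 2 * T1) : ℕ) : ℝ) := by
        have h1 : (Z : ℝ) ≤ 4 + ((∑ κ ∈ K, (L κ - 2 * T1) : ℕ) : ℝ) + 2 * (2 * T1) * s := by
          exact_mod_cast hsum
        have h2 : 30 * ((s : ℝ) + 1) * (2 * T1) < Z := by exact_mod_cast hsmall
        have h3 : (8 : ℝ) ≤ T1 := by exact_mod_cast hT8
        have h4 : (0 : ℝ) ≤ s := Nat.cast_nonneg _
        have h5 : (0 : ℝ) ≤ T1 * s := by positivity
        nlinarith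
      have hS3 : c * ((9 / 10 : ℝ) * Z) ≤ (9 / 10 * v) * (gp a' E ymax T1 (p + 1) Z : ℝ) :=
        le_trans (mul_le_mul_of_nonneg_left hS2 hc0) hS1
      linarith

/-- Good places are close to elements of `J`. -/
theorem gp_le {a' E P T1 Y s : ℕ} (hT1 : (P + 1) * (a' + 4) + 5 * (P * E + 1) + 8 ≤ T1)
    (hs : cJ 0 (Y + 2 * T1) ≤ s) : gp a' E (P * E + 1) T1 P Y ≤ s * (2 * T1) := by
  classical
  have hsub : (Finset.range Y).filter (fun σ => Good a' E (P * E + 1) T1 σ P) ⊆
      (((Finset.Ico 0 (Y + 2 * T1)).filter J) ×ˢ Finset.range (2 * T1)).image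
        (fun q => q.1 - q.2) := by
    intro σ hσ
    rw [Finset.mem_filter, Finset.mem_range] at hσ
    obtain ⟨hσ1, B, hB, hD⟩ := hσ
    obtain ⟨y, hy1, hy2⟩ : ∃ y ∈ Finset.Icc 1 (P * E + 1), y ∉ B := by
      by_contra hcon
      push Not at hcon
      have h1 := Finset.card_le_card (s := Finset.Icc 1 (P * E + 1)) (t := B) hcon
      rw [Nat.card_Icc] at h1
      omega
    rw [Finset.mem_Icc] at hy1
    have h1 := hD y hy1.1 hy1.2 hy2
    obtain ⟨i, hi1, hi2, hi3⟩ := exists_J_of_D (by omega) h1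
    have hmul : P * (a' + 4) + (a' + 4) = (P + 1) * (a' + 4) := by ring
    rw [Finset.mem_image]
    refine ⟨(i, i - σ), ?_, by simp; omega⟩
    rw [Finset.mem_product, Finset.mem_filter, Finset.mem_Ico, Finset.mem_range]
    refine ⟨⟨⟨Nat.zero_le _, ?_⟩, hi3⟩, ?_⟩
    · show i < Y + 2 * T1
      omega
    · show i - σ < 2 * T1
      omega
  calc gp a' E (P * E + 1) T1 P Y ≤ _ := Finset.card_le_card hsub
    _ ≤ _ := Finset.card_image_le
    _ = cJ 0 (Y + 2 * T1) * (2 * T1) := by rw [Finset.card_product, Finset.card_range]; rfl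
    _ ≤ _ := Nat.mul_le_mul_right _ hs

/-- **Claim A.** -/
theorem claim_A {x a a' T1 P Y s : ℕ} (hJx : J x) (hxa : dl x < (3 / 4 : ℝ) ^ a)
    (haY : 5 * Y + 10 ≤ a)
    (hT1 : T1 = (P + 1) * (a' + 4) + 5 * (P * (12 * s * s + 16 + s * s * a') + 1) + 8)
    (H1 : ∀ x', J x' → x < x' → x' < x + Y → (3 / 4 : ℝ) ^ a' ≤ dl x')
    (hsx : cJ x (x + Y) ≤ s) (hs : cJ 0 (Y + 2 * T1) ≤ s) (hYP : (Y : ℝ) ≤ (100 / 81 : ℝ) ^ P) :
    (Y : ℝ) ≤ 3840 * ((s : ℝ) + 1) * s ^ 2 * T1 + 2 * T1 := by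
  have hE : (Exc x Y a').card ≤ 12 * s * s + 16 + s * s * a' :=
    card_Exc hxa (by omega) hsx (le_trans (cJ_mono le_rfl (by omega)) hs)
  have hT0 : (0 : ℝ) ≤ T1 := Nat.cast_nonneg _
  have hs0 : (0 : ℝ) ≤ s := Nat.cast_nonneg _
  by_cases hcase : 2 * T1 ≤ Y
  · obtain ⟨c, hc⟩ : ∃ c : ℝ, c = Real.sqrt (2 * T1 / (1920 * ((s : ℝ) + 1))) := ⟨_, rfl⟩
    have hc2 : c ^ 2 = 2 * T1 / (1920 * ((s : ℝ) + 1)) := by
      rw [hc]; exact Real.sq_sqrt (by positivity)
    have hc0 : 0 ≤ c := by rw [hc]; exact Real.sqrt_nonneg _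
    have hcc : c ^ 2 * (1920 * ((s : ℝ) + 1)) ≤ 2 * T1 := by
      rw [hc2, div_mul_cancel₀ _ (by positivity)]
    have hY0 : 0 < Y := by omega
    have hYr : (0 : ℝ) < Y := by exact_mod_cast hY0
    obtain ⟨v, hv⟩ : ∃ v : ℝ, v = Real.sqrt Y := ⟨_, rfl⟩
    have hv0 : 0 < v := by rw [hv]; exact Real.sqrt_pos.2 hYr
    have hv2 : v ^ 2 = Y := by rw [hv]; exact Real.sq_sqrt hYr.le
    have h1 := count_ind (E := 12 * s * s + 16 + s * s * a')
      (ymax := P * (12 * s * s + 16 + s * s * a') + 1) (T1 := T1) (P := P) (s := s)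
      hJx hxa haY hE (by omega) H1 hsx hc0 hcc P le_rfl Y le_rfl hYP hcase v hv0 hv2.ge
    have h2 := gp_le (a' := a') (E := 12 * s * s + 16 + s * s * a') (P := P) (T1 := T1) (Y := Y)
      (s := s) (by omega) hs
    have h3 : (gp a' (12 * s * s + 16 + s * s * a') (P * (12 * s * s + 16 + s * s * a') + 1)
        T1 P Y : ℝ) ≤ s * (2 * T1) := by exact_mod_cast h2
    have h4 : c * v ≤ s * (2 * T1) := by
      have h5 : c * Y ≤ v * (s * (2 * T1)) := le_trans h1 (mul_le_mul_of_nonneg_left h3 hv0.le)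
      have h6 : v * (c * v) ≤ v * (s * (2 * T1)) := by
        calc v * (c * v) = c * v ^ 2 := by ring
          _ = c * Y := by rw [hv2]
          _ ≤ _ := h5
      exact le_of_mul_le_mul_left h6 hv0
    have h5 : c ^ 2 * Y ≤ (s * (2 * T1)) ^ 2 := by
      calc c ^ 2 * Y = (c * v) ^ 2 := by rw [← hv2]; ring
        _ ≤ _ := pow_le_pow_left₀ (by positivity) h4 2
    rw [hc2] at h5
    have hT8 : (8 : ℝ) ≤ T1 := by
      have : 8 ≤ T1 := by omega
      exact_mod_cast this
    have h6 : (2 * (T1 : ℝ)) * Y ≤ (2 * T1) * (3840 * ((s : ℝ) + 1) * s ^ 2 * T1) := by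
      have h7 : 2 * (T1 : ℝ) / (1920 * ((s : ℝ) + 1)) * Y * (1920 * ((s : ℝ) + 1)) ≤
          (s * (2 * T1)) ^ 2 * (1920 * ((s : ℝ) + 1)) :=
        mul_le_mul_of_nonneg_right h5 (by positivity)
      have h8 : 2 * (T1 : ℝ) / (1920 * ((s : ℝ) + 1)) * Y * (1920 * ((s : ℝ) + 1)) = 2 * T1 * Y := by
        field_simp
      rw [h8] at h7
      calc (2 * (T1 : ℝ)) * Y ≤ (s * (2 * T1)) ^ 2 * (1920 * ((s : ℝ) + 1)) := h7
        _ = _ := by ring
    have h7 : (Y : ℝ) ≤ 3840 * ((s : ℝ) + 1) * s ^ 2 * T1 :=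
      le_of_mul_le_mul_left h6 (by linarith)
    linarith
  · push Not at hcase
    have h1 : (Y : ℝ) ≤ 2 * T1 := by exact_mod_cast hcase.le
    have h2 : (0 : ℝ) ≤ 3840 * ((s : ℝ) + 1) * s ^ 2 * T1 := by positivity
    linarith

end Pool.Agent.helper74.FT
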