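import Pool.Agent.helper74.FT.Recursion

/-! Every element of `J` is close to a composite value. -/

namespace Pool.Agent.helper74.FT

open Pool.Agent.helper87

/-- A window of 18 noncomposite values forces `e (n + 13) = 0`. -/
theorem comp_near {j : ℕ} (hj : 21 ≤ j) (hJ : J j) :
    ∃ t, Comp (fa t) ∧ j ≤ t + 13 ∧ t ≤ j + 4 := by
  by_contra hcon
  push Not at hcon
  obtain ⟨n, rfl⟩ : ∃ n, j = n + 13 := ⟨j - 13, by omega⟩
  have hg : ∀ i ≤ 17 + 0, Pool.Agent.helper87.Good (fa (n + i)) := by
    intro i hi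
    apply good_of_not_comp (seven_lt (by omega))
    intro hc
    have := hcon (n + i) hc (by omega)
    omega
  have law := run_law hg 1 (by norm_num)
  apply hJ
  unfold e b
  have h1 : 3 * (fa (n + 13 + 1) + 1) = 4 * (fa (n + 13) + 1) := by simpa using law
  have h2 : (3 : ℤ) * ((fa (n + 13 + 1) : ℤ) + 1) = 4 * ((fa (n + 13) : ℤ) + 1) := by
    exact_mod_cast h1
  linarith

theorem cJ_le_comp (N : ℕ) : cJ 0 N ≤ 18 * (compIdx N).card + 93 := by
  classical
  have h1 : cJ 0 N ≤ 21 + cJ 21 (N + 21) := by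
    have h2 := cJ_add (m := 0) (n := 21) (k := N + 21) (by omega) (by omega)
    have h3 : cJ 0 21 ≤ 21 := by
      unfold cJ
      refine le_trans (Finset.card_filter_le _ _) ?_
      simp
    have h4 : cJ 0 N ≤ cJ 0 (N + 21) := cJ_mono le_rfl (by omega)
    omega
  have h1' : cJ 0 N ≤ 21 + ((Finset.Ico 21 N).filter J).card := by
    rcases Nat.lt_or_ge N 21 with h | h
    · have : cJ 0 N ≤ N := by
        unfold cJ
        refine le_trans (Finset.card_filter_le _ _) ?_
        simp
      omega
    · have h2 := cJ_add (m := 0) (n := 21) (k := N) (by omega) h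
      have h3 : cJ 0 21 ≤ 21 := by
        unfold cJ
        refine le_trans (Finset.card_filter_le _ _) ?_
        simp
      have h4 : cJ 21 N = ((Finset.Ico 21 N).filter J).card := rfl
      omega
  have hnear : ∀ j : ℕ, 21 ≤ j → J j → ∃ t, Comp (fa t) ∧ j ≤ t + 13 ∧ t ≤ j + 4 :=
    fun j hj hJ => comp_near hj hJ
  choose! f hf1 hf2 hf3 using hnear
  have h2 : ((Finset.Ico 21 N).filter J).card ≤
      18 * (((Finset.Ico 21 N).filter J).image f).card := by
    apply Finset.card_le_mul_card_image
    intro t _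
    have hsub : (((Finset.Ico 21 N).filter J).filter fun x => f x = t) ⊆
        Finset.Icc (t - 4) (t + 13) := by
      intro m hm
      rw [Finset.mem_filter, Finset.mem_filter, Finset.mem_Ico] at hm
      have a2 := hf2 m hm.1.1.1 hm.1.2
      have a3 := hf3 m hm.1.1.1 hm.1.2
      rw [hm.2] at a2 a3
      rw [Finset.mem_Icc]
      omega
    calc _ ≤ (Finset.Icc (t - 4) (t + 13)).card := Finset.card_le_card hsub
      _ = t + 13 + 1 - (t - 4) := Nat.card_Icc _ _
      _ ≤ 18 := by omega
  have h3 : (((Finset.Ico 21 N).filter J).image f).card ≤ (compIdx N).card + 4 := by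
    have h4 : ((Finset.Ico 21 N).filter J).image f ⊆ compIdx N ∪ Finset.Ioc N (N + 4) := by
      intro t ht
      rw [Finset.mem_image] at ht
      obtain ⟨m, hm, rfl⟩ := ht
      rw [Finset.mem_filter, Finset.mem_Ico] at hm
      have a1 := hf1 m hm.1.1 hm.2
      have a2 := hf2 m hm.1.1 hm.2
      have a3 := hf3 m hm.1.1 hm.2
      rw [Finset.mem_union, mem_compIdx, Finset.mem_Ioc]
      by_cases h : f m ≤ N
      · left
        exact ⟨⟨by omega, h⟩, a1⟩
      · right
        omega
    calc _ ≤ (compIdx N ∪ Finset.Ioc N (N + 4)).card := Finset.card_le_card h4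
      _ ≤ (compIdx N).card + (Finset.Ioc N (N + 4)).card := Finset.card_union_le _ _
      _ = (compIdx N).card + 4 := by rw [Nat.card_Ioc]; omega
  omega

end Pool.Agent.helper74.FT
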