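import Pool.Agent.helper74.FT.Basic

/-! The integrality relation and the running-minimum lower bound for the convolution. -/

namespace Pool.Agent.helper74.FT

/-- the integer `Σ_{x ≤ i < R} e_i b_{R-i}` -/
def W (x R : ℕ) : ℤ := ∑ i ∈ Finset.Ico x R, e i * b (R - i)

/-- the convolution `Σ_{x ≤ i < R} (D_i - D_{i+1}) D_{R-i}` -/
noncomputable def S (x R : ℕ) : ℝ := ∑ i ∈ Finset.Ico x R, (D i - D (i + 1)) * D (R - i)

theorem tele {x R : ℕ} (h : x ≤ R) : ∑ i ∈ Finset.Ico x R, (D i - D (i + 1)) = D x - D R := by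
  induction R, h using Nat.le_induction with
  | base => simp
  | succ R hR ih =>
    rw [Finset.sum_Ico_succ_top hR, ih]
    ring

theorem pow_mul_D (n : ℕ) : (4 / 3 : ℝ) ^ n * D n = dl n := by
  unfold D
  rw [← mul_assoc, ← mul_pow]
  norm_num

theorem e_dl_eq {i R : ℕ} (h : i ≤ R) :
    (e i : ℝ) * dl (R - i) = 4 * (4 / 3 : ℝ) ^ R * ((D i - D (i + 1)) * D (R - i)) := by
  rw [D_sub, ← pow_mul_D (R - i)]
  have : (4 / 3 : ℝ) ^ R = (4 / 3 : ℝ) ^ (R - i) * (4 / 3 : ℝ) ^ i := by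
    rw [← pow_add, Nat.sub_add_cancel h]
  rw [this]
  have h2 : (4 / 3 : ℝ) ^ i * (3 / 4 : ℝ) ^ i = 1 := by rw [← mul_pow]; norm_num
  calc (e i : ℝ) * ((4 / 3 : ℝ) ^ (R - i) * D (R - i))
      = ((4 / 3 : ℝ) ^ i * (3 / 4 : ℝ) ^ i) * ((e i : ℝ) * ((4 / 3 : ℝ) ^ (R - i) * D (R - i))) := by
        rw [h2, one_mul]
    _ = _ := by ring

theorem e_pow_eq {i R : ℕ} (h : i ≤ R) :
    (e i : ℝ) * (4 / 3 : ℝ) ^ (R - i) = 4 * (4 / 3 : ℝ) ^ R * (D i - D (i + 1)) := by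
  rw [D_sub]
  have : (4 / 3 : ℝ) ^ R = (4 / 3 : ℝ) ^ (R - i) * (4 / 3 : ℝ) ^ i := by
    rw [← pow_add, Nat.sub_add_cancel h]
  rw [this]
  have h2 : (4 / 3 : ℝ) ^ i * (3 / 4 : ℝ) ^ i = 1 := by rw [← mul_pow]; norm_num
  calc (e i : ℝ) * (4 / 3 : ℝ) ^ (R - i)
      = ((4 / 3 : ℝ) ^ i * (3 / 4 : ℝ) ^ i) * ((e i : ℝ) * (4 / 3 : ℝ) ^ (R - i)) := by
        rw [h2, one_mul]
    _ = _ := by ring

theorem W_eq_sum {x R : ℕ} (h : x ≤ R) :
    (W x R : ℝ) = (∑ i ∈ Finset.Ico x R, (e i : ℝ) * dl (R - i))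
      + 4 * (4 / 3 : ℝ) ^ R * (D x - D R) := by
  unfold W
  push_cast
  rw [← tele h, Finset.mul_sum, ← Finset.sum_add_distrib]
  apply Finset.sum_congr rfl
  intro i hi
  rw [Finset.mem_Ico] at hi
  rw [← e_pow_eq hi.2.le, ← mul_add]
  congr 1
  unfold dl
  ring

theorem sum_e_dl {x R : ℕ} :
    (∑ i ∈ Finset.Ico x R, (e i : ℝ) * dl (R - i)) = 4 * (4 / 3 : ℝ) ^ R * S x R := by
  unfold S
  rw [Finset.mul_sum]
  apply Finset.sum_congr rfl
  intro i hi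
  rw [Finset.mem_Ico] at hi
  exact e_dl_eq hi.2.le

theorem W_eq {x R : ℕ} (h : x ≤ R) :
    (W x R : ℝ) = 4 * (4 / 3 : ℝ) ^ R * (S x R + D x - D R) := by
  rw [W_eq_sum h, sum_e_dl]
  ring

theorem W_eq_sum' {x R : ℕ} (h : x ≤ R) :
    (W x R : ℝ) = (∑ i ∈ Finset.Ico x R, (e i : ℝ) * dl (R - i))
      + 4 * (4 / 3 : ℝ) ^ (R - x) * dl x - 4 * dl R := by
  rw [W_eq_sum h, ← pow_mul_D x, ← pow_mul_D R]
  have : (4 / 3 : ℝ) ^ R = (4 / 3 : ℝ) ^ (R - x) * (4 / 3 : ℝ) ^ x := by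
    rw [← pow_add, Nat.sub_add_cancel h]
  rw [this]
  ring

/-- the integer `W 0 R - 4 b R` -/
def W0 (R : ℕ) : ℤ := W 0 R - 4 * b R

theorem W0_eq (R : ℕ) : (W0 R : ℝ) = 4 * (4 / 3 : ℝ) ^ R * (S 0 R - 2 * D R) := by
  unfold W0
  push_cast
  rw [W_eq (Nat.zero_le R), D_zero]
  have h : (b R : ℝ) = (4 / 3 : ℝ) ^ R + (4 / 3 : ℝ) ^ R * D R := by
    rw [pow_mul_D]; unfold dl; ring
  rw [h]
  ring

theorem W0_eq_sum (R : ℕ) :
    (W0 R : ℝ) = (∑ i ∈ Finset.Ico 0 R, (e i : ℝ) * dl (R - i)) - 8 * dl R := by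
  rw [W0_eq, sum_e_dl, ← pow_mul_D R]
  ring

/-- Abstract lower bound: `M` is a nonincreasing minorant of `T` with `M 0 = T 0`. -/
theorem conv_lower (T M Dd : ℕ → ℝ) (n j : ℕ) (hj : j < n) (hM0 : M 0 = T 0)
    (hMdec : ∀ k, M (k + 1) ≤ M k) (hD : ∀ k, 0 ≤ Dd k)
    (h : ∀ k, 1 ≤ k → k < n → M k = T k ∨ Dd (n - k) = Dd (n - k + 1)) :
    (M j - M (j + 1)) * Dd (n - j) - (T n - M n) * Dd 1 ≤
      ∑ k ∈ Finset.range n, (T k - T (k + 1)) * Dd (n - k) := by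
  have h1 : ∑ k ∈ Finset.range n, (T k - T (k + 1)) * Dd (n - k)
      = (∑ k ∈ Finset.range n, (M k - M (k + 1)) * Dd (n - k)) +
        ∑ k ∈ Finset.range n, ((T k - M k) - (T (k + 1) - M (k + 1))) * Dd (n - k) := by
    rw [← Finset.sum_add_distrib]
    apply Finset.sum_congr rfl
    intro k _
    ring
  have h2 : (M j - M (j + 1)) * Dd (n - j) ≤
      ∑ k ∈ Finset.range n, (M k - M (k + 1)) * Dd (n - k) := by
    apply Finset.single_le_sum (f := fun k => (M k - M (k + 1)) * Dd (n - k))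
    · intro k _
      exact mul_nonneg (by linarith [hMdec k]) (hD _)
    · exact Finset.mem_range.2 hj
  have h3 : ∀ m, m ≤ n → ∑ k ∈ Finset.range m, ((T k - M k) - (T (k + 1) - M (k + 1))) * Dd (n - k)
      = - (T m - M m) * Dd (n - m + 1) := by
    intro m
    induction m with
    | zero => intro _; rw [hM0]; simp
    | succ m ih =>
      intro hm
      rw [Finset.sum_range_succ, ih (by omega)]
      have e1 : n - (m + 1) + 1 = n - m := by omega
      rw [e1]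
      have h4 : (T m - M m) * (Dd (n - m) - Dd (n - m + 1)) = 0 := by
        rcases Nat.eq_zero_or_pos m with h0 | h0
        · rw [h0, hM0]; ring
        · rcases h m h0 (by omega) with h5 | h5
          · rw [h5]; ring
          · rw [← h5]; ring
      linear_combination h4
  rw [h1, h3 n le_rfl, Nat.sub_self]
  have e2 : (0 : ℕ) + 1 = 1 := rfl
  rw [e2]
  linarith

/-- running minimum -/
noncomputable def Mn (T : ℕ → ℝ) : ℕ → ℝ
  | 0 => T 0
  | (k + 1) => min (Mn T k) (T (k + 1))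

theorem Mn_le (T : ℕ → ℝ) (k : ℕ) : Mn T k ≤ T k := by
  cases k with
  | zero => exact le_rfl
  | succ k => exact min_le_right _ _

theorem Mn_succ_le (T : ℕ → ℝ) (k : ℕ) : Mn T (k + 1) ≤ Mn T k := min_le_left _ _

theorem Mn_attained (T : ℕ → ℝ) (k : ℕ) : ∃ i ≤ k, Mn T k = T i := by
  induction k with
  | zero => exact ⟨0, le_rfl, rfl⟩
  | succ k ih =>
    obtain ⟨i, hi, h⟩ := ih
    rcases min_cases (Mn T k) (T (k + 1)) with h1 | h1
    · exact ⟨i, by omega, by rw [← h]; exact h1.1⟩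
    · exact ⟨k + 1, le_rfl, h1.1⟩

/-- first element of `J` from `n` on, when there is one up to `m` -/
theorem first_J {n m : ℕ} (hnm : n ≤ m) (h : J m) :
    ∃ x, n ≤ x ∧ x ≤ m ∧ J x ∧ D n = D x := by
  have hex : ∃ x, n ≤ x ∧ J x := ⟨m, hnm, h⟩
  have hs := Nat.find_spec hex
  refine ⟨Nat.find hex, hs.1, Nat.find_min' hex ⟨hnm, h⟩, hs.2, ?_⟩
  apply D_const hs.1
  intro i hi hi' hJ
  exact Nat.find_min hex hi' ⟨hi, hJ⟩

theorem M_ge {z j n a : ℕ} (hj : j < n)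
    (H1 : ∀ x, J x → z ≤ x → x < z + n → (3 / 4 : ℝ) ^ a ≤ dl x) (hJ : J (z + j)) :
    (3 / 4 : ℝ) ^ (z + j + a) ≤ Mn (fun k => D (z + k)) j := by
  obtain ⟨i, hi, hM⟩ := Mn_attained (fun k => D (z + k)) j
  rw [hM]
  obtain ⟨x, hx1, hx2, hx3, hx4⟩ := first_J (n := z + i) (m := z + j) (by omega) hJ
  show _ ≤ D (z + i)
  rw [hx4]
  unfold D
  calc (3 / 4 : ℝ) ^ (z + j + a) ≤ (3 / 4 : ℝ) ^ (x + a) :=
        pow_le_pow_of_le_one (by norm_num) (by norm_num) (by omega)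
    _ = (3 / 4 : ℝ) ^ x * (3 / 4 : ℝ) ^ a := pow_add _ _ _
    _ ≤ _ := mul_le_mul_of_nonneg_left (H1 x hx3 (by omega) (by omega)) (by positivity)

theorem E_window {z k n a : ℕ} (hk : k ≤ n)
    (H1 : ∀ x, J x → z ≤ x → x < z + n → (3 / 4 : ℝ) ^ a ≤ dl x)
    (hne : Mn (fun k => D (z + k)) k ≠ D (z + k)) :
    ∃ x, J x ∧ z ≤ x ∧ x < z + k ∧ z + k < x + a := by
  obtain ⟨i, hi, hM⟩ := Mn_attained (fun k => D (z + k)) k
  have hlt : D (z + i) < D (z + k) := by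
    have h1 := Mn_le (fun k => D (z + k)) k
    rcases lt_or_eq_of_le h1 with h2 | h2
    · rw [hM] at h2; exact h2
    · exact absurd h2 hne
  have hex : ∃ x, z + i ≤ x ∧ x < z + k ∧ J x := by
    by_contra hcon
    push Not at hcon
    have := D_const (n := z + i) (m := z + k) (by omega) (fun i' h1 h2 => hcon i' h1 h2)
    linarith
  obtain ⟨m, hm1, hm2, hm3⟩ := hex
  obtain ⟨x, hx1, hx2, hx3, hx4⟩ := first_J hm1 hm3
  refine ⟨x, hx3, by omega, by omega, ?_⟩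
  by_contra hcon
  push Not at hcon
  have h1 : D x < (3 / 4 : ℝ) ^ (z + k) := by
    rw [← hx4]
    exact lt_of_lt_of_le hlt (D_le _)
  have h2 : (3 / 4 : ℝ) ^ (z + k) ≤ (3 / 4 : ℝ) ^ (x + a) :=
    pow_le_pow_of_le_one (by norm_num) (by norm_num) (by omega)
  have h3 : (3 / 4 : ℝ) ^ (x + a) ≤ D x := by
    unfold D
    rw [pow_add]
    exact mul_le_mul_of_nonneg_left (H1 x hx3 (by omega) (by omega)) (by positivity)
  linarith

/-- The lower bound for the convolution, used in both settings. -/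
theorem S_lower {z n j y a L : ℕ} (hjy : j + y = n) (hy : 1 ≤ y) (hyL : y < L)
    (H1 : ∀ x, J x → z ≤ x → x < z + n → (3 / 4 : ℝ) ^ a ≤ dl x)
    (H2 : ∀ x j', J x → z ≤ x → x < z + n → J j' → x + j' < z + n → x + j' + a ≤ z + n)
    (hJ : J (z + j)) (hfree : ∀ i, z + j < i → i < z + j + L → ¬ J i) :
    ((3 / 4 : ℝ) ^ (z + j + a) - (3 / 4 : ℝ) ^ (z + j + L)) * D y
      - (1 / 2) * (3 / 4 : ℝ) ^ (z + j + L) ≤ S z (z + n) := by
  have hS : S z (z + n) = ∑ k ∈ Finset.range n, (D (z + k) - D (z + (k + 1))) * D (n - k) := by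
    unfold S
    rw [Finset.sum_Ico_eq_sum_range, Nat.add_sub_cancel_left]
    apply Finset.sum_congr rfl
    intro k _
    rw [Nat.add_sub_add_left, Nat.add_assoc]
  have h := conv_lower (fun k => D (z + k)) (Mn (fun k => D (z + k))) D n j (by omega) rfl
    (Mn_succ_le _) (fun k => (D_pos k).le) (by
      intro k hk1 hk2
      by_cases hne : Mn (fun k => D (z + k)) k = D (z + k)
      · exact Or.inl hne
      · right
        obtain ⟨x, hx1, hx2, hx3, hx4⟩ := E_window (by omega) H1 hne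
        apply D_const (by omega)
        intro i hi1 hi2 hJi
        have : i = n - k := by omega
        subst this
        have := H2 x (n - k) hx1 hx2 (by omega) hJi (by omega)
        omega)
  rw [hS]
  refine le_trans ?_ h
  have h1 := M_ge (j := j) (by omega) H1 hJ
  have h2 : Mn (fun k => D (z + k)) (j + 1) ≤ (3 / 4 : ℝ) ^ (z + j + L) := by
    refine le_trans (Mn_le _ _) ?_
    show D (z + (j + 1)) ≤ _
    exact D_le_of_free (by omega) (fun i hi hi' => hfree i (by omega) hi')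
  have h3 : D (z + n) ≤ (3 / 4 : ℝ) ^ (z + j + L) :=
    D_le_of_free (by omega) (fun i hi hi' => hfree i (by omega) hi')
  have h4 : 0 ≤ Mn (fun k => D (z + k)) n := by
    obtain ⟨i, _, hM⟩ := Mn_attained (fun k => D (z + k)) n
    rw [hM]; exact (D_pos _).le
  have h5 : n - j = y := by omega
  rw [h5, D_one]
  have h6 := D_pos y
  have h7 : ((3 / 4 : ℝ) ^ (z + j + a) - (3 / 4 : ℝ) ^ (z + j + L)) * D y ≤
      (Mn (fun k => D (z + k)) j - Mn (fun k => D (z + k)) (j + 1)) * D y :=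
    mul_le_mul_of_nonneg_right (by linarith) h6.le
  have h8 : ((fun k => D (z + k)) n - Mn (fun k => D (z + k)) n) * (1 / 2) ≤
      (1 / 2) * (3 / 4 : ℝ) ^ (z + j + L) := by
    show (D (z + n) - _) * (1 / 2) ≤ _
    linarith
  linarith

end Pool.Agent.helper74.FT
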