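import Pool.Agent.helper74.FT.Conv

/-! Proposition 1: without restarts, `J` has at least `√(N/a)` elements. -/

namespace Pool.Agent.helper74.FT

/-- Sum over many `R` of the digit sums. -/
theorem sum_conv_le {x Y sx s : ℕ} (G : Finset ℕ) (hG : ∀ R ∈ G, x < R ∧ R ≤ x + Y)
    (hsx : cJ x (x + Y) ≤ sx) (hs : cJ 0 (Y + 1) ≤ s) :
    ∑ R ∈ G, ∑ i ∈ Finset.Ico x R, (e i : ℝ) * dl (R - i) ≤ 12 * (sx : ℝ) * s := by
  classical
  have h1 : ∀ R ∈ G, ∑ i ∈ Finset.Ico x R, (e i : ℝ) * dl (R - i) ≤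
      ∑ i ∈ (Finset.Ico x (x + Y)).filter J, (if i < R then 3 * dl (R - i) else 0) := by
    intro R hR
    obtain ⟨hR1, hR2⟩ := hG R hR
    rw [Finset.sum_filter]
    have h2 : ∑ i ∈ Finset.Ico x R, (e i : ℝ) * dl (R - i) ≤
        ∑ i ∈ Finset.Ico x R, (if J i then (if i < R then 3 * dl (R - i) else 0) else 0) := by
      apply Finset.sum_le_sum
      intro i hi
      rw [Finset.mem_Ico] at hi
      rw [if_pos hi.2]
      split_ifs with hJ
      · have h3 : (e i : ℝ) ≤ 3 := by exact_mod_cast e_le i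
        exact mul_le_mul_of_nonneg_right h3 (dl_pos _).le
      · have h0 : e i = 0 := not_not.1 hJ
        rw [h0]; simp
    refine le_trans h2 ?_
    apply Finset.sum_le_sum_of_subset_of_nonneg
    · exact Finset.Ico_subset_Ico le_rfl hR2
    · intro i _ _
      split_ifs
      · exact mul_nonneg (by norm_num) (dl_pos _).le
      · exact le_rfl
      · exact le_rfl
  refine le_trans (Finset.sum_le_sum h1) ?_
  rw [Finset.sum_comm]
  have h2 : ∀ i ∈ (Finset.Ico x (x + Y)).filter J,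
      ∑ R ∈ G, (if i < R then 3 * dl (R - i) else 0) ≤ 12 * (s : ℝ) := by
    intro i hi
    rw [Finset.mem_filter, Finset.mem_Ico] at hi
    rw [← Finset.sum_filter, ← Finset.mul_sum]
    have h3 : ∑ R ∈ G.filter (fun R => i < R), dl (R - i) ≤ ∑ m ∈ Finset.Ico 1 (Y + 1), dl m := by
      have h4 : ∑ R ∈ G.filter (fun R => i < R), dl (R - i)
          = ∑ m ∈ (G.filter (fun R => i < R)).image (fun R => R - i), dl m := by
        rw [Finset.sum_image]
        intro R hR R' hR' h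
        rw [Finset.mem_coe, Finset.mem_filter] at hR hR'
        have h' : R - i = R' - i := h
        omega
      rw [h4]
      apply Finset.sum_le_sum_of_subset_of_nonneg
      · intro m hm
        rw [Finset.mem_image] at hm
        obtain ⟨R, hR, rfl⟩ := hm
        rw [Finset.mem_filter] at hR
        have := hG R hR.1
        rw [Finset.mem_Ico]
        omega
      · intro m _ _
        exact (dl_pos m).le
    have h5 := sum_dl_le hs
    linarith
  refine le_trans (Finset.sum_le_sum h2) ?_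
  rw [Finset.sum_const, nsmul_eq_mul]
  have h3 : ((((Finset.Ico x (x + Y)).filter J).card : ℕ) : ℝ) ≤ sx := by exact_mod_cast hsx
  have h4 : (0 : ℝ) ≤ 12 * (s : ℝ) := by positivity
  calc _ ≤ (sx : ℝ) * (12 * s) := mul_le_mul_of_nonneg_right h3 h4
    _ = _ := by ring

/-- numerical fact: `4 (3/4)^5 < 1`. -/
theorem pow_five (y : ℕ) : (3 / 4 : ℝ) ^ (5 * y) ≤ (1 / 4 : ℝ) ^ y := by
  rw [pow_mul]
  exact pow_le_pow_left₀ (by norm_num) (by norm_num) y

/-- At a good place the integer `W0` is positive. -/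
theorem W0_pos {j y a L : ℕ} (hy : 1 ≤ y) (hL : a + 5 * y + 4 ≤ L)
    (H1 : ∀ x, J x → x < j + y → (3 / 4 : ℝ) ^ a ≤ dl x)
    (H2 : ∀ x j', J x → x < j + y → J j' → x + j' < j + y → x + j' + a ≤ j + y)
    (hJ : J j) (hfree : ∀ i, j < i → i < j + L → ¬ J i) : 1 ≤ W0 (j + y) := by
  have hS := S_lower (z := 0) (n := j + y) (j := j) (y := y) (a := a) (L := L) rfl hy (by omega)
    (fun x hx _ hx2 => H1 x hx (by omega))
    (fun x j' hx _ hx2 hj' hx3 => by
      have := H2 x j' hx (by omega) hj' (by omega)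
      omega)
    (by rwa [Nat.zero_add]) (fun i hi hi2 => hfree i (by omega) (by omega))
  rw [Nat.zero_add, Nat.zero_add] at hS
  have hDR : D (j + y) ≤ (3 / 4 : ℝ) ^ (j + L) :=
    D_le_of_free (by omega) (fun i hi hi' => hfree i (by omega) hi')
  have hDy := D_ge y
  have hp : (0 : ℝ) < (3 / 4 : ℝ) ^ j := by positivity
  have ha : (0 : ℝ) < (3 / 4 : ℝ) ^ a := by positivity
  have h5 := pow_five y
  have hL1 : (3 / 4 : ℝ) ^ L ≤ (3 / 4 : ℝ) ^ a * (1 / 4 : ℝ) ^ y * (81 / 256) := by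
    calc (3 / 4 : ℝ) ^ L ≤ (3 / 4 : ℝ) ^ (a + 5 * y + 4) :=
          pow_le_pow_of_le_one (by norm_num) (by norm_num) hL
      _ = (3 / 4 : ℝ) ^ a * (3 / 4 : ℝ) ^ (5 * y) * (81 / 256) := by
          rw [pow_add, pow_add]; norm_num
      _ ≤ _ := by gcongr
  have hq : (1 / 4 : ℝ) ^ y ≤ 1 / 4 := by
    calc (1 / 4 : ℝ) ^ y ≤ (1 / 4 : ℝ) ^ 1 :=
          pow_le_pow_of_le_one (by norm_num) (by norm_num) hy
      _ = 1 / 4 := by norm_num
  have hq0 : (0 : ℝ) < (1 / 4 : ℝ) ^ y := by positivity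
  have hL2 : (3 / 4 : ℝ) ^ L ≤ (3 / 4 : ℝ) ^ a * (81 / 1024) := by
    refine le_trans hL1 ?_
    nlinarith
  -- main inequality
  have hmain : 0 < S 0 (j + y) - 2 * D (j + y) := by
    have e1 : (3 / 4 : ℝ) ^ (j + a) = (3 / 4 : ℝ) ^ j * (3 / 4 : ℝ) ^ a := pow_add _ _ _
    have e2 : (3 / 4 : ℝ) ^ (j + L) = (3 / 4 : ℝ) ^ j * (3 / 4 : ℝ) ^ L := pow_add _ _ _
    rw [e1, e2] at hS
    rw [e2] at hDR
    have h6 : (3 / 4 : ℝ) ^ j * ((3 / 4 : ℝ) ^ a * (943 / 1024)) * (1 / 4 : ℝ) ^ y ≤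
        ((3 / 4 : ℝ) ^ j * (3 / 4 : ℝ) ^ a - (3 / 4 : ℝ) ^ j * (3 / 4 : ℝ) ^ L) * D y := by
      have h7 : (3 / 4 : ℝ) ^ j * ((3 / 4 : ℝ) ^ a * (943 / 1024)) ≤
          (3 / 4 : ℝ) ^ j * (3 / 4 : ℝ) ^ a - (3 / 4 : ℝ) ^ j * (3 / 4 : ℝ) ^ L := by
        rw [← mul_sub]
        exact mul_le_mul_of_nonneg_left (by linarith) hp.le
      exact mul_le_mul h7 hDy hq0.le (le_trans (by positivity) h7)
    have h8 : (3 / 4 : ℝ) ^ j * (3 / 4 : ℝ) ^ L ≤
        (3 / 4 : ℝ) ^ j * ((3 / 4 : ℝ) ^ a * (1 / 4 : ℝ) ^ y * (81 / 256)) :=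
      mul_le_mul_of_nonneg_left hL1 hp.le
    have h9 : (0 : ℝ) < (3 / 4 : ℝ) ^ j * (3 / 4 : ℝ) ^ a * (1 / 4 : ℝ) ^ y := by positivity
    nlinarith
  have hW : (0 : ℝ) < (W0 (j + y) : ℝ) := by
    rw [W0_eq]
    positivity
  have : 0 < W0 (j + y) := by exact_mod_cast hW
  omega

/-- The number of `R` with `W0 R ≥ 1`. -/
theorem card_W0 {N s : ℕ} (hs : cJ 0 N ≤ s) (G : Finset ℕ)
    (hG : ∀ R ∈ G, 1 ≤ R ∧ R < N ∧ 1 ≤ W0 R) : (G.card : ℝ) ≤ 12 * (s : ℝ) * s := by
  rcases Nat.eq_zero_or_pos N with h0 | h0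
  · have : G = ∅ := by
      apply Finset.eq_empty_of_forall_notMem
      intro R hR
      have := hG R hR
      omega
    rw [this, Finset.card_empty, Nat.cast_zero]
    positivity
  obtain ⟨Y, rfl⟩ : ∃ Y, N = Y + 1 := ⟨N - 1, by omega⟩
  have h1 : (G.card : ℝ) ≤ ∑ R ∈ G, ∑ i ∈ Finset.Ico 0 R, (e i : ℝ) * dl (R - i) := by
    rw [Finset.card_eq_sum_ones]
    push_cast
    apply Finset.sum_le_sum
    intro R hR
    have h2 := (hG R hR).2.2
    have h3 : (1 : ℝ) ≤ (W0 R : ℝ) := by exact_mod_cast h2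
    rw [W0_eq_sum] at h3
    have := dl_pos R
    linarith
  refine le_trans h1 ?_
  apply sum_conv_le (x := 0) (Y := Y) G
  · intro R hR
    have := hG R hR
    omega
  · rw [Nat.zero_add]
    exact le_trans (cJ_mono le_rfl (by omega)) hs
  · exact hs

/-- The number of `R` just above a sum of two elements. -/
theorem card_bad {x Y sx s a : ℕ} (hsx : cJ x (x + Y) ≤ sx) (hs : cJ 0 (Y + 1) ≤ s)
    (B : Finset ℕ) (hB : ∀ R ∈ B, R ≤ x + Y ∧ ∃ x' j', J x' ∧ x ≤ x' ∧ J j' ∧ x' + j' < R ∧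
      R < x' + j' + a) : B.card ≤ sx * s * a := by
  classical
  have hsub : B ⊆ ((((Finset.Ico x (x + Y)).filter J) ×ˢ ((Finset.Ico 0 (Y + 1)).filter J)) ×ˢ
      Finset.range a).image (fun p => p.1.1 + p.1.2 + p.2) := by
    intro R hR
    obtain ⟨h1, x', j', h2, h3, h4, h5, h6⟩ := hB R hR
    rw [Finset.mem_image]
    refine ⟨((x', j'), R - (x' + j')), ?_, by simp; omega⟩
    rw [Finset.mem_product, Finset.mem_product, Finset.mem_filter, Finset.mem_filter,
      Finset.mem_Ico, Finset.mem_Ico, Finset.mem_range]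
    refine ⟨⟨⟨⟨h3, ?_⟩, h2⟩, ⟨⟨Nat.zero_le _, ?_⟩, h4⟩⟩, ?_⟩
    · show x' < x + Y
      omega
    · show j' < Y + 1
      omega
    · show R - (x' + j') < a
      omega
  calc B.card ≤ _ := Finset.card_le_card hsub
    _ ≤ _ := Finset.card_image_le
    _ = cJ x (x + Y) * cJ 0 (Y + 1) * a := by
        rw [Finset.card_product, Finset.card_product, Finset.card_range]; rfl
    _ ≤ _ := by gcongr

/-- **Proposition 1.** -/
theorem prop_one {N a : ℕ} (H : ∀ x, J x → x < N → (3 / 4 : ℝ) ^ a ≤ dl x) :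
    N ≤ (6 * a + 68) * (cJ 0 N) ^ 2 := by
  classical
  rcases Nat.eq_zero_or_pos N with h0 | hN
  · rw [h0]; exact Nat.zero_le _
  obtain ⟨s, hs⟩ : ∃ s, s = cJ 0 N := ⟨_, rfl⟩
  have hs1 : 1 ≤ s := by rw [hs]; exact cJ_pos J_zero hN
  rw [← hs]
  -- the block function
  obtain ⟨g, hg⟩ : ∃ g : ℕ → ℕ, g = fun m => Nat.findGreatest J m := ⟨_, rfl⟩
  have gJ : ∀ m, J (g m) := fun m => by
    rw [hg]; exact Nat.findGreatest_spec (P := J) (Nat.zero_le m) J_zero
  have gle : ∀ m, g m ≤ m := fun m => by rw [hg]; exact Nat.findGreatest_le m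
  have gfree : ∀ m i, g m < i → i ≤ m → ¬ J i := fun m i h1 h2 => by
    rw [hg] at h1; exact Nat.findGreatest_is_greatest h1 h2
  have guniq : ∀ m k, J k → k ≤ m → (∀ i, k < i → i ≤ m → ¬ J i) → g m = k := by
    intro m k h1 h2 h3
    by_contra hne
    rcases lt_or_gt_of_ne hne with h4 | h4
    · exact gfree m k h4 h2 h1
    · exact h3 (g m) h4 (gle m) (gJ m)
  obtain ⟨Y, hY⟩ : ∃ Y : ℕ → ℕ, Y = fun m => (m + 1 - g m - a - 4) / 5 := ⟨_, rfl⟩
  have hYm : ∀ m, Y m = (m + 1 - g m - a - 4) / 5 := fun m => by rw [hY]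
  -- the two parts of range N
  obtain ⟨P0, hP0⟩ : ∃ P0 : Finset ℕ, P0 = (Finset.range N).filter (fun m => Y m = 0) := ⟨_, rfl⟩
  obtain ⟨P1, hP1⟩ : ∃ P1 : Finset ℕ, P1 = (Finset.range N).filter (fun m => ¬ Y m = 0) :=
    ⟨_, rfl⟩
  have hcard : P0.card + P1.card = N := by
    rw [hP0, hP1, Finset.card_filter_add_card_filter_not, Finset.card_range]
  -- first part
  have hc0 : P0.card ≤ s * (a + 8) := by
    have hsub : P0 ⊆ (((Finset.Ico 0 N).filter J) ×ˢ Finset.range (a + 8)).image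
        (fun p => p.1 + p.2) := by
      intro m hm
      rw [hP0, Finset.mem_filter, Finset.mem_range] at hm
      rw [Finset.mem_image]
      have h1 := hYm m
      have h2 := gle m
      refine ⟨(g m, m - g m), ?_, by simp; omega⟩
      rw [Finset.mem_product, Finset.mem_filter, Finset.mem_Ico, Finset.mem_range]
      refine ⟨⟨⟨Nat.zero_le _, ?_⟩, gJ m⟩, ?_⟩
      · show g m < N
        omega
      · show m - g m < a + 8
        omega
    calc P0.card ≤ _ := Finset.card_le_card hsub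
      _ ≤ _ := Finset.card_image_le
      _ = cJ 0 N * (a + 8) := by rw [Finset.card_product, Finset.card_range]; rfl
      _ = s * (a + 8) := by rw [hs]
  -- second part
  obtain ⟨R, hR⟩ : ∃ R : ℕ → ℕ, R = fun m => g m + Y m := ⟨_, rfl⟩
  have hRm : ∀ m, R m = g m + Y m := fun m => by rw [hR]
  have hc1 : P1.card ≤ 5 * (P1.image R).card := by
    apply Finset.card_le_mul_card_image
    intro r hr
    rw [Finset.mem_image] at hr
    obtain ⟨m0, hm0, hm0r⟩ := hr
    have hsub : (P1.filter fun m => R m = r) ⊆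
        Finset.Ico (5 * Y m0 + g m0 + a + 3) (5 * Y m0 + g m0 + a + 3 + 5) := by
      intro m hm
      rw [Finset.mem_filter, hP1, Finset.mem_filter, Finset.mem_range] at hm
      rw [hP1, Finset.mem_filter, Finset.mem_range] at hm0
      obtain ⟨⟨hm1, hm2⟩, hm3⟩ := hm
      have a1 := hYm m
      have a2 := hYm m0
      have b1 := hRm m
      have b2 := hRm m0
      have c1 := gle m
      have c2 := gle m0
      have hgr : g r = g m := guniq r (g m) (gJ m) (by omega) (fun i h1 h2 =>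
        gfree m i h1 (by omega))
      have hgr0 : g r = g m0 := guniq r (g m0) (gJ m0) (by omega) (fun i h1 h2 =>
        gfree m0 i h1 (by omega))
      rw [Finset.mem_Ico]
      omega
    calc _ ≤ _ := Finset.card_le_card hsub
      _ = 5 := by rw [Nat.card_Ico, Nat.add_sub_cancel_left]
  -- G and B
  obtain ⟨G, hG⟩ : ∃ G : Finset ℕ, G = (P1.image R).filter (fun r => 1 ≤ W0 r) := ⟨_, rfl⟩
  obtain ⟨B, hB⟩ : ∃ B : Finset ℕ, B = (P1.image R).filter (fun r => ¬ 1 ≤ W0 r) := ⟨_, rfl⟩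
  have hGB : G.card + B.card = (P1.image R).card := by
    rw [hG, hB, Finset.card_filter_add_card_filter_not]
  have hrange : ∀ m ∈ P1, 1 ≤ Y m ∧ R m < N ∧ R m ≤ m ∧ a + 5 * Y m + 4 ≤ m + 1 - g m := by
    intro m hm
    rw [hP1, Finset.mem_filter, Finset.mem_range] at hm
    have a1 := hYm m
    have b1 := hRm m
    have c1 := gle m
    omega
  have hGc : (G.card : ℝ) ≤ 12 * (s : ℝ) * s := by
    apply card_W0 (N := N) (le_of_eq hs.symm)
    intro r hr
    rw [hG, Finset.mem_filter, Finset.mem_image] at hr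
    obtain ⟨⟨m, hm, rfl⟩, h2⟩ := hr
    have := hrange m hm
    have := hRm m
    refine ⟨by omega, by omega, h2⟩
  have hBc : B.card ≤ s * s * a := by
    obtain ⟨N', rfl⟩ : ∃ N', N = N' + 1 := ⟨N - 1, by omega⟩
    apply card_bad (x := 0) (Y := N') (sx := s) (s := s)
    · rw [hs, Nat.zero_add]; exact cJ_mono le_rfl (by omega)
    · rw [hs]
    · intro r hr
      rw [hB, Finset.mem_filter, Finset.mem_image] at hr
      obtain ⟨⟨m, hm, rfl⟩, h2⟩ := hr
      obtain ⟨h3, h4, h5, h6⟩ := hrange m hm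
      have h7 := hRm m
      have h8 := gle m
      refine ⟨by omega, ?_⟩
      by_contra hcon
      push Not at hcon
      apply h2
      rw [h7]
      apply W0_pos (a := a) (L := m + 1 - g m) h3 h6
      · intro x hx hx2
        exact H x hx (by omega)
      · intro x j' hx hx2 hj' hx3
        have := hcon x j' hx (Nat.zero_le _) hj' (by omega)
        omega
      · exact gJ m
      · intro i hi hi2
        exact gfree m i hi (by omega)
  have hGn : G.card ≤ 12 * s * s := by exact_mod_cast hGc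
  nlinarith [Nat.mul_le_mul hs1 (le_refl (s * (a + 8)))]

end Pool.Agent.helper74.FT
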