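import Pool.Agent.helper74.FT.ClaimA

/-! The doubling recursion and the growth of `#(J ∩ [0, N))`. -/

namespace Pool.Agent.helper74.FT

/-- Claim A with the constants worked out. -/
theorem restart_in_window {x a a' P Y N s : ℕ} (hJx : J x) (hxa : dl x < (3 / 4 : ℝ) ^ a)
    (haY : 5 * Y + 10 ≤ a) (ha' : 1 ≤ a') (hs1 : 1 ≤ s)
    (hY : Y = 1400000 * s ^ 5 * (P + 1) * a')
    (hs : cJ 0 N ≤ s) (hP : (N : ℝ) ≤ (100 / 81 : ℝ) ^ P) (hxN : x + 2 * Y ≤ N) :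
    ∃ x', J x' ∧ x < x' ∧ x' < x + Y ∧ dl x' < (3 / 4 : ℝ) ^ a' := by
  by_contra hcon
  push Not at hcon
  obtain ⟨T1, hT1⟩ : ∃ T1,
      T1 = (P + 1) * (a' + 4) + 5 * (P * (12 * s * s + 16 + s * s * a') + 1) + 8 := ⟨_, rfl⟩
  have hTb : T1 ≤ 6 * (P + 1) * (a' + 28) * s ^ 2 := by
    obtain ⟨r, rfl⟩ : ∃ r, s = r + 1 := ⟨s - 1, by omega⟩
    rw [hT1]
    nlinarith [Nat.zero_le (P * a'), Nat.zero_le (P * a' * r), Nat.zero_le (P * a' * r ^ 2),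
      Nat.zero_le (a' * r), Nat.zero_le (a' * r ^ 2), Nat.zero_le (P * r), Nat.zero_le (P * r ^ 2),
      Nat.zero_le (r ^ 2)]
  have hTb2 : T1 ≤ 174 * (P + 1) * a' * s ^ 2 := by
    refine le_trans hTb ?_
    have : a' + 28 ≤ 29 * a' := by omega
    calc 6 * (P + 1) * (a' + 28) * s ^ 2 ≤ 6 * (P + 1) * (29 * a') * s ^ 2 := by gcongr
      _ = _ := by ring
  have hs5 : s ^ 2 ≤ s ^ 5 := Nat.pow_le_pow_right hs1 (by norm_num)
  have hTY : 2 * T1 ≤ Y := by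
    rw [hY]
    calc 2 * T1 ≤ 2 * (174 * (P + 1) * a' * s ^ 2) := by omega
      _ ≤ 2 * (174 * (P + 1) * a' * s ^ 5) := by gcongr
      _ = 348 * (s ^ 5 * (P + 1) * a') := by ring
      _ ≤ 1400000 * (s ^ 5 * (P + 1) * a') := Nat.mul_le_mul_right _ (by norm_num)
      _ = _ := by ring
  have hYN : (Y : ℝ) ≤ (100 / 81 : ℝ) ^ P := by
    refine le_trans ?_ hP
    have : Y ≤ N := by omega
    exact_mod_cast this
  have h := claim_A (T1 := T1) hJx hxa haY hT1 (fun x' h1 h2 h3 => hcon x' h1 h2 h3)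
    (le_trans (cJ_mono (Nat.zero_le _) (by omega)) hs)
    (le_trans (cJ_mono (Nat.zero_le _) (by omega)) hs) hYN
  have hr : (1 : ℝ) ≤ s := by exact_mod_cast hs1
  have hTr : (T1 : ℝ) ≤ 174 * ((P : ℝ) + 1) * a' * s ^ 2 := by exact_mod_cast hTb2
  have hYr : (Y : ℝ) = 1400000 * (s : ℝ) ^ 5 * ((P : ℝ) + 1) * a' := by rw [hY]; push_cast; ring
  have ha1 : (1 : ℝ) ≤ a' := by exact_mod_cast ha'
  have hP0 : (0 : ℝ) ≤ P := Nat.cast_nonneg _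
  have h2 : 3840 * ((s : ℝ) + 1) * s ^ 2 * T1 + 2 * T1 ≤ 7682 * s ^ 3 * T1 := by
    have hT0 : (0 : ℝ) ≤ T1 := Nat.cast_nonneg _
    have h3 : (1 : ℝ) ≤ (s : ℝ) ^ 3 := one_le_pow₀ hr
    have h4 : (s : ℝ) ^ 2 ≤ (s : ℝ) ^ 3 := by
      exact pow_le_pow_right₀ hr (by norm_num)
    calc 3840 * ((s : ℝ) + 1) * s ^ 2 * T1 + 2 * T1
        = (3840 * (s : ℝ) ^ 3 + 3840 * (s : ℝ) ^ 2 + 2 * 1) * T1 := by ring
      _ ≤ (3840 * (s : ℝ) ^ 3 + 3840 * (s : ℝ) ^ 3 + 2 * (s : ℝ) ^ 3) * T1 := by gcongr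
      _ = 7682 * (s : ℝ) ^ 3 * T1 := by ring
  have h3 : 7682 * (s : ℝ) ^ 3 * T1 ≤
      7682 * (s : ℝ) ^ 3 * (174 * ((P : ℝ) + 1) * a' * (s : ℝ) ^ 2) := by
    gcongr
  have h4 : (Y : ℝ) ≤ 1336668 * ((s : ℝ) ^ 5 * ((P : ℝ) + 1) * a') := by
    calc (Y : ℝ) ≤ 7682 * (s : ℝ) ^ 3 * (174 * ((P : ℝ) + 1) * a' * (s : ℝ) ^ 2) := by linarith
      _ = _ := by ring
  have h5 : (0 : ℝ) < (s : ℝ) ^ 5 * ((P : ℝ) + 1) * a' := by positivity
  rw [hYr] at h4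
  nlinarith

/-- The recursion. -/
theorem rec_count {N P s : ℕ} (hs1 : 1 ≤ s) (hs : cJ 0 N ≤ s)
    (hP : (N : ℝ) ≤ (100 / 81 : ℝ) ^ P) :
    ∀ k x : ℕ, J x → dl x < (3 / 4 : ℝ) ^ ((84000000 * s ^ 5 * (P + 1)) ^ k) →
      x + (84000000 * s ^ 5 * (P + 1)) ^ k ≤ N →
      2 ^ k ≤ cJ x (x + (84000000 * s ^ 5 * (P + 1)) ^ k) := by
  obtain ⟨Q, hQ⟩ : ∃ Q, Q = 84000000 * s ^ 5 * (P + 1) := ⟨_, rfl⟩
  rw [← hQ]
  have hs5 : 1 ≤ s ^ 5 := Nat.one_le_pow _ _ hs1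
  have hQ1 : 84000000 ≤ Q := by
    rw [hQ]
    calc 84000000 = 84000000 * 1 * 1 := by norm_num
      _ ≤ 84000000 * s ^ 5 * (P + 1) := by gcongr; omega
  intro k
  induction k with
  | zero =>
    intro x hJ _ _
    rw [pow_zero, pow_zero, cJ_one hJ]
  | succ k ih =>
    intro x hJ hx hN
    obtain ⟨A, hA⟩ : ∃ A, A = Q ^ k := ⟨_, rfl⟩
    have hA1 : 1 ≤ A := by rw [hA]; exact Nat.one_le_pow _ _ (by omega)
    have hAk : Q ^ (k + 1) = Q * A := by rw [hA, pow_succ]; ring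
    obtain ⟨Y, hY⟩ : ∃ Y, Y = 1400000 * s ^ 5 * (P + 1) * (8 * A) := ⟨_, rfl⟩
    have hYQ : 60 * Y = 8 * (Q * A) := by rw [hY, hQ]; ring
    have hQA : 84000000 * A ≤ Q * A := Nat.mul_le_mul_right _ hQ1
    rw [hAk] at hx hN ⊢
    obtain ⟨x', hx'J, hx'1, hx'2, hx'3⟩ := restart_in_window (a := Q * A) (a' := 8 * A) (P := P)
      (Y := Y) (N := N) (s := s) hJ hx (by omega) (by omega) hs1 hY hs hP (by omega)
    obtain ⟨κ, rfl⟩ : ∃ κ, x' = x + κ := ⟨x' - x, by omega⟩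
    have hκ := G3 (κ := κ) (A := A) hJ hx (by omega) (by omega) hx'3
    have i1 := ih x hJ (by
      refine lt_of_lt_of_le hx ?_
      rw [← hA]
      exact pow_le_pow_of_le_one (by norm_num) (by norm_num) (by omega)) (by rw [← hA]; omega)
    have i2 := ih (x + κ) hx'J (by
      refine lt_of_lt_of_le hx'3 ?_
      rw [← hA]
      exact pow_le_pow_of_le_one (by norm_num) (by norm_num) (by omega)) (by rw [← hA]; omega)
    rw [← hA] at i1 i2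
    have h1 := cJ_add (m := x) (n := x + κ) (k := x + κ + A) (by omega) (by omega)
    have h2 : cJ x (x + A) ≤ cJ x (x + κ) := cJ_mono le_rfl (by omega)
    have h3 : cJ x (x + κ + A) ≤ cJ x (x + Q * A) := cJ_mono le_rfl (by omega)
    rw [pow_succ]
    omega

/-- Growth of the number of elements of `J`. -/
theorem growth {N P k : ℕ} (hN : 1 ≤ N) (hP : (N : ℝ) ≤ (100 / 81 : ℝ) ^ P)
    (hk : cJ 0 N < 2 ^ k) :
    N ≤ 149 * (84000000 * (2 ^ k) ^ 5 * (P + 1)) ^ k * (2 ^ k) ^ 2 := by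
  obtain ⟨s, hs⟩ : ∃ s, s = cJ 0 N := ⟨_, rfl⟩
  have hs1 : 1 ≤ s := by rw [hs]; exact cJ_pos J_zero (by omega)
  rw [← hs] at hk
  obtain ⟨A, hA⟩ : ∃ A, A = (84000000 * s ^ 5 * (P + 1)) ^ k := ⟨_, rfl⟩
  have hA1 : 1 ≤ A := by
    rw [hA]
    apply Nat.one_le_pow
    positivity
  have hmain : N ≤ 149 * A * s ^ 2 := by
    have hs2 : 1 ≤ s ^ 2 := Nat.one_le_pow _ _ hs1
    have hAs : 1 ≤ A * s ^ 2 := Nat.mul_le_mul hA1 hs2
    have hAs' : A ≤ A * s ^ 2 := Nat.le_mul_of_pos_right _ (by omega)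
    by_cases hcase : ∀ x, J x → x < N / 2 → (3 / 4 : ℝ) ^ A ≤ dl x
    · have h1 := prop_one (N := N / 2) (a := A) hcase
      have h2 : cJ 0 (N / 2) ≤ s := by rw [hs]; exact cJ_mono le_rfl (by omega)
      have h3 : N / 2 ≤ (6 * A + 68) * s ^ 2 :=
        le_trans h1 (Nat.mul_le_mul_left _ (Nat.pow_le_pow_left h2 2))
      have h4 : (6 * A + 68) * s ^ 2 ≤ 74 * A * s ^ 2 := Nat.mul_le_mul_right _ (by omega)
      have h5 : 74 * A * s ^ 2 = 74 * (A * s ^ 2) := by ring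
      have h6 : 149 * A * s ^ 2 = 149 * (A * s ^ 2) := by ring
      omega
    · push Not at hcase
      obtain ⟨x, hx1, hx2, hx3⟩ := hcase
      have h6 : 149 * A * s ^ 2 = 149 * (A * s ^ 2) := by ring
      by_cases hAN : x + A ≤ N
      · exfalso
        have h1 := rec_count (N := N) (P := P) (s := s) hs1 hs.ge hP k x hx1
          (by rw [← hA]; exact hx3) (by rw [← hA]; exact hAN)
        rw [← hA] at h1
        have h2 : cJ x (x + A) ≤ s := by rw [hs]; exact cJ_mono (Nat.zero_le _) hAN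
        omega
      · omega
  refine le_trans hmain ?_
  rw [hA]
  have hk' : s ≤ 2 ^ k := hk.le
  gcongr

end Pool.Agent.helper74.FT
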