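import Pool.Agent.helper74.FT.PropOne

/-! Restarts: indices `x ∈ J` with `dl x` very small. -/

namespace Pool.Agent.helper74.FT

/-- After a restart of quality `a`, the quantities `dl (x + κ)` are not small. -/
theorem G1 {x a κ : ℕ} (hJ : J x) (hx : dl x < (3 / 4 : ℝ) ^ a) (hκ : 1 ≤ κ) (ha : 5 * κ ≤ a) :
    (1 / 3 : ℝ) ^ κ ≤ dl (x + κ) := by
  -- the integer `t`
  obtain ⟨t, ht⟩ : ∃ t : ℤ, t = 4 ^ κ * b x - 3 ^ κ * b (x + κ) := ⟨_, rfl⟩
  have h3 : (0 : ℝ) < 3 ^ κ := by positivity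
  have h4 : (0 : ℝ) < 4 ^ κ := by positivity
  have htr : (t : ℝ) = 4 ^ κ * dl x - 3 ^ κ * dl (x + κ) := by
    rw [ht]
    push_cast
    have e1 : (b x : ℝ) = dl x + (4 / 3 : ℝ) ^ x := by unfold dl; ring
    have e2 : (b (x + κ) : ℝ) = dl (x + κ) + (4 / 3 : ℝ) ^ (x + κ) := by unfold dl; ring
    rw [e1, e2, pow_add]
    have e3 : (3 : ℝ) ^ κ * (4 / 3 : ℝ) ^ κ = 4 ^ κ := by rw [← mul_pow]; norm_num
    calc (4 : ℝ) ^ κ * (dl x + (4 / 3 : ℝ) ^ x)
          - 3 ^ κ * (dl (x + κ) + (4 / 3 : ℝ) ^ x * (4 / 3 : ℝ) ^ κ)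
        = 4 ^ κ * dl x - 3 ^ κ * dl (x + κ) + (4 ^ κ * (4 / 3 : ℝ) ^ x
          - (3 ^ κ * (4 / 3 : ℝ) ^ κ) * (4 / 3 : ℝ) ^ x) := by ring
      _ = _ := by rw [e3]; ring
  have hxs : (4 : ℝ) ^ κ * dl x < 1 := by
    calc (4 : ℝ) ^ κ * dl x < 4 ^ κ * (3 / 4 : ℝ) ^ a := mul_lt_mul_of_pos_left hx h4
      _ ≤ 4 ^ κ * (3 / 4 : ℝ) ^ (5 * κ) := by
          apply mul_le_mul_of_nonneg_left _ h4.le
          exact pow_le_pow_of_le_one (by norm_num) (by norm_num) ha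
      _ ≤ 4 ^ κ * (1 / 4 : ℝ) ^ κ := mul_le_mul_of_nonneg_left (pow_five κ) h4.le
      _ = 1 := by rw [← mul_pow]; norm_num
  have hd := dl_pos (x + κ)
  have htlt : (t : ℝ) < 1 := by
    rw [htr]
    have := mul_pos h3 hd
    linarith
  have htlt' : t < 1 := by exact_mod_cast htlt
  have htne : t ≠ 0 := by
    intro h0
    rw [h0] at ht
    have hdvd : (3 : ℤ) ∣ 4 ^ κ * b x := by
      have : (4 : ℤ) ^ κ * b x = 3 ^ κ * b (x + κ) := by linarith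
      rw [this]
      exact Dvd.dvd.mul_right (dvd_pow_self 3 (by omega)) _
    have hb : (3 : ℤ) ∣ b x := by
      have hc : IsCoprime (3 : ℤ) (4 ^ κ) := by
        apply IsCoprime.pow_right
        norm_num
      exact hc.dvd_of_dvd_mul_left hdvd
    obtain ⟨c, hc⟩ := hb
    have he : e x = 4 * (3 * c) - 3 * b (x + 1) := by rw [← hc]; rfl
    have h1 := e_le x
    have h2 := e_ge x
    have h5 : e x ≠ 0 := hJ
    have h6 : e x = 3 := by omega
    have h7 := e_eq x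
    rw [h6] at h7
    push_cast at h7
    have h8 := dl_pos (x + 1)
    have h9 : (3 / 4 : ℝ) ^ a ≤ 3 / 4 := by
      calc (3 / 4 : ℝ) ^ a ≤ (3 / 4 : ℝ) ^ 1 :=
            pow_le_pow_of_le_one (by norm_num) (by norm_num) (by omega)
        _ = 3 / 4 := by norm_num
    linarith
  have htle : t ≤ -1 := by omega
  have htle' : (t : ℝ) ≤ -1 := by exact_mod_cast htle
  rw [htr] at htle'
  have h10 : 1 ≤ 3 ^ κ * dl (x + κ) := by
    have := mul_pos h4 (dl_pos x)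
    linarith
  rw [div_pow, one_pow, div_le_iff₀ h3]
  linarith

/-- `J` meets `[x+κ, x+5κ)` after a restart. -/
theorem G2 {x a κ : ℕ} (hJ : J x) (hx : dl x < (3 / 4 : ℝ) ^ a) (hκ : 1 ≤ κ) (ha : 5 * κ ≤ a) :
    ∃ i, x + κ ≤ i ∧ i < x + 5 * κ ∧ J i := by
  by_contra hcon
  push Not at hcon
  have h1 := G1 hJ hx hκ ha
  have h2 := D_le_of_free (n := x + κ) (m := x + 5 * κ) (by omega) (fun i hi hi' => hcon i hi hi')
  have h3 : (3 / 4 : ℝ) ^ (x + κ) * (1 / 3 : ℝ) ^ κ ≤ D (x + κ) := by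
    unfold D
    exact mul_le_mul_of_nonneg_left h1 (by positivity)
  have h4 : (3 / 4 : ℝ) ^ (x + 5 * κ) = (3 / 4 : ℝ) ^ (x + κ) * (3 / 4 : ℝ) ^ (4 * κ) := by
    rw [← pow_add]; congr 1; omega
  rw [h4] at h2
  have h5 : (3 / 4 : ℝ) ^ (4 * κ) < (1 / 3 : ℝ) ^ κ := by
    rw [pow_mul]
    exact pow_lt_pow_left₀ (by norm_num) (by norm_num) (by omega)
  have h6 : (0 : ℝ) < (3 / 4 : ℝ) ^ (x + κ) := by positivity
  have h7 := mul_lt_mul_of_pos_left h5 h6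
  linarith

/-- A restart of quality `8A` inside the range of a restart is far from it. -/
theorem G3 {x a κ A : ℕ} (hJ : J x) (hx : dl x < (3 / 4 : ℝ) ^ a) (hκ : 1 ≤ κ) (ha : 5 * κ ≤ a)
    (hA : dl (x + κ) < (3 / 4 : ℝ) ^ (8 * A)) : 2 * A < κ := by
  by_contra hcon
  push Not at hcon
  have h1 := G1 hJ hx hκ ha
  have h2 : (3 / 4 : ℝ) ^ (8 * A) ≤ (1 / 3 : ℝ) ^ (2 * A) := by
    have : 8 * A = 4 * (2 * A) := by ring
    rw [this, pow_mul]
    exact pow_le_pow_left₀ (by norm_num) (by norm_num) _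
  have h3 : (1 / 3 : ℝ) ^ (2 * A) ≤ (1 / 3 : ℝ) ^ κ :=
    pow_le_pow_of_le_one (by norm_num) (by norm_num) hcon
  linarith

/-- The exceptional set of a restart. -/
noncomputable def Exc (x Y a' : ℕ) : Finset ℕ :=
  open Classical in
  (Finset.Ioc x (x + Y)).filter (fun R => 1 ≤ W x R ∨
    ∃ x' j', J x' ∧ x < x' ∧ J j' ∧ x' + j' < R ∧ R < x' + j' + a')

theorem sum_geom_le (Y : ℕ) : ∑ m ∈ Finset.Ico 1 (Y + 1), (4 / 3 : ℝ) ^ m ≤ 4 * (4 / 3 : ℝ) ^ Y := by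
  induction Y with
  | zero => simp
  | succ Y ih =>
    rw [Finset.sum_Ico_succ_top (by omega)]
    rw [pow_succ] at *
    linarith

theorem card_Exc {x Y a' s a : ℕ} (hx : dl x < (3 / 4 : ℝ) ^ a) (ha : Y ≤ a)
    (hsx : cJ x (x + Y) ≤ s) (hs : cJ 0 (Y + 1) ≤ s) :
    (Exc x Y a').card ≤ 12 * s * s + 16 + s * s * a' := by
  classical
  obtain ⟨E1, hE1⟩ : ∃ E1 : Finset ℕ, E1 = (Finset.Ioc x (x + Y)).filter (fun R => 1 ≤ W x R) :=
    ⟨_, rfl⟩
  obtain ⟨E2, hE2⟩ : ∃ E2 : Finset ℕ, E2 = (Finset.Ioc x (x + Y)).filter (fun R =>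
    ∃ x' j', J x' ∧ x < x' ∧ J j' ∧ x' + j' < R ∧ R < x' + j' + a') := ⟨_, rfl⟩
  have hsub : Exc x Y a' ⊆ E1 ∪ E2 := by
    intro R hR
    unfold Exc at hR
    rw [Finset.mem_filter] at hR
    rw [Finset.mem_union, hE1, hE2, Finset.mem_filter, Finset.mem_filter]
    rcases hR.2 with h | h
    · exact Or.inl ⟨hR.1, h⟩
    · exact Or.inr ⟨hR.1, h⟩
  have h2 : E2.card ≤ s * s * a' := by
    apply card_bad (x := x) (Y := Y) hsx hs
    intro R hR
    rw [hE2, Finset.mem_filter, Finset.mem_Ioc] at hR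
    obtain ⟨⟨h1, h2⟩, x', j', h3, h4, h5, h6, h7⟩ := hR
    exact ⟨h2, x', j', h3, h4.le, h5, h6, h7⟩
  have h1 : E1.card ≤ 12 * s * s + 16 := by
    have hG : ∀ R ∈ E1, x < R ∧ R ≤ x + Y := by
      intro R hR
      rw [hE1, Finset.mem_filter, Finset.mem_Ioc] at hR
      exact hR.1
    have h3 : (E1.card : ℝ) ≤ ∑ R ∈ E1, ((∑ i ∈ Finset.Ico x R, (e i : ℝ) * dl (R - i))
        + 4 * (4 / 3 : ℝ) ^ (R - x) * dl x) := by
      rw [Finset.card_eq_sum_ones]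
      push_cast
      apply Finset.sum_le_sum
      intro R hR
      have h4 := hG R hR
      rw [hE1, Finset.mem_filter] at hR
      have h5 : (1 : ℝ) ≤ (W x R : ℝ) := by exact_mod_cast hR.2
      rw [W_eq_sum' h4.1.le] at h5
      have := dl_pos R
      linarith
    rw [Finset.sum_add_distrib] at h3
    have h4 := sum_conv_le (x := x) (Y := Y) (sx := s) (s := s) E1 hG hsx hs
    have h5 : ∑ R ∈ E1, 4 * (4 / 3 : ℝ) ^ (R - x) * dl x ≤ 16 := by
      have h6 : ∑ R ∈ E1, 4 * (4 / 3 : ℝ) ^ (R - x) * dl x =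
          ∑ m ∈ E1.image (fun R => R - x), 4 * (4 / 3 : ℝ) ^ m * dl x := by
        rw [Finset.sum_image]
        intro R hR R' hR' h
        have := hG R hR
        have := hG R' hR'
        have h' : R - x = R' - x := h
        omega
      have h7 : ∑ m ∈ E1.image (fun R => R - x), 4 * (4 / 3 : ℝ) ^ m * dl x ≤
          ∑ m ∈ Finset.Ico 1 (Y + 1), 4 * (4 / 3 : ℝ) ^ m * dl x := by
        apply Finset.sum_le_sum_of_subset_of_nonneg
        · intro m hm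
          rw [Finset.mem_image] at hm
          obtain ⟨R, hR, rfl⟩ := hm
          have := hG R hR
          rw [Finset.mem_Ico]
          omega
        · intro m _ _
          have := dl_pos x
          positivity
      have h8 : ∑ m ∈ Finset.Ico 1 (Y + 1), 4 * (4 / 3 : ℝ) ^ m * dl x =
          4 * dl x * ∑ m ∈ Finset.Ico 1 (Y + 1), (4 / 3 : ℝ) ^ m := by
        rw [Finset.mul_sum]
        apply Finset.sum_congr rfl
        intro m _
        ring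
      rw [h6]
      refine le_trans h7 ?_
      rw [h8]
      have h9 := sum_geom_le Y
      have h10 := dl_pos x
      have h11 : (4 / 3 : ℝ) ^ Y * dl x ≤ 1 := by
        calc (4 / 3 : ℝ) ^ Y * dl x ≤ (4 / 3 : ℝ) ^ Y * (3 / 4 : ℝ) ^ a :=
              mul_le_mul_of_nonneg_left hx.le (by positivity)
          _ ≤ (4 / 3 : ℝ) ^ Y * (3 / 4 : ℝ) ^ Y := by
              apply mul_le_mul_of_nonneg_left _ (by positivity)
              exact pow_le_pow_of_le_one (by norm_num) (by norm_num) ha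
          _ = 1 := by rw [← mul_pow]; norm_num
      calc 4 * dl x * ∑ m ∈ Finset.Ico 1 (Y + 1), (4 / 3 : ℝ) ^ m
          ≤ 4 * dl x * (4 * (4 / 3 : ℝ) ^ Y) := mul_le_mul_of_nonneg_left h9 (by positivity)
        _ = 16 * ((4 / 3 : ℝ) ^ Y * dl x) := by ring
        _ ≤ 16 := by linarith
    have h6 : (E1.card : ℝ) ≤ ((12 * s * s + 16 : ℕ) : ℝ) := by
      push_cast
      linarith
    exact_mod_cast h6
  calc (Exc x Y a').card ≤ (E1 ∪ E2).card := Finset.card_le_card hsub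
    _ ≤ E1.card + E2.card := Finset.card_union_le _ _
    _ ≤ _ := by omega

/-- The transfer inequality `(★★)`. -/
theorem transfer {x κ y a' L Y : ℕ} (hκ : 1 ≤ κ) (hy : 1 ≤ y) (hyL : y < L)
    (hL : a' + 3 ≤ L) (hY : κ + y ≤ Y)
    (H1 : ∀ x', J x' → x < x' → x' < x + Y → (3 / 4 : ℝ) ^ a' ≤ dl x')
    (hR : x + κ + y ∉ Exc x Y a')
    (hJ : J (x + κ)) (hfree : ∀ i, x + κ < i → i < x + κ + L → ¬ J i)
    (hD : 6 * (3 / 4 : ℝ) ^ (L - a') ≤ D y) :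
    (3 / 4 : ℝ) ^ (κ + a' + 4) * D y ≤ D (κ + y) := by
  classical
  unfold Exc at hR
  rw [Finset.mem_filter, Finset.mem_Ioc] at hR
  push Not at hR
  obtain ⟨hR1, hR2⟩ := hR ⟨by omega, by omega⟩
  obtain ⟨j, rfl⟩ : ∃ j, κ = j + 1 := ⟨κ - 1, by omega⟩
  have hS := S_lower (z := x + 1) (n := j + y) (j := j) (y := y) (a := a') (L := L) rfl hy hyL
    (fun x' hx' h1 h2 => H1 x' hx' (by omega) (by omega))
    (fun x' j' hx' h1 h2 hj' h3 => by
      have := hR2 x' j' hx' (by omega) hj' (by omega)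
      omega)
    (by have : x + 1 + j = x + (j + 1) := by ring
        rwa [this])
    (fun i h1 h2 => hfree i (by omega) (by omega))
  have e1 : x + 1 + (j + y) = x + (j + 1) + y := by ring
  have e2 : x + 1 + j = x + (j + 1) := by ring
  rw [e1, e2] at hS
  -- W x R ≤ 0
  have hW : (W x (x + (j + 1) + y) : ℝ) ≤ 0 := by
    have : W x (x + (j + 1) + y) ≤ 0 := by omega
    exact_mod_cast this
  rw [W_eq (by omega)] at hW
  have hS2 : S x (x + (j + 1) + y) = (D x - D (x + 1)) * D (j + 1 + y) +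
      S (x + 1) (x + (j + 1) + y) := by
    unfold S
    rw [Finset.sum_eq_sum_Ico_succ_bot (by omega)]
    congr 2
    congr 1
    omega
  rw [hS2] at hW
  have hp : (0 : ℝ) < 4 * (4 / 3 : ℝ) ^ (x + (j + 1) + y) := by positivity
  have hW2 : (D x - D (x + 1)) * D (j + 1 + y) + S (x + 1) (x + (j + 1) + y) + D x
      - D (x + (j + 1) + y) ≤ 0 := by
    by_contra hcon
    push Not at hcon
    have := mul_pos hp hcon
    linarith
  have hDR : D (x + (j + 1) + y) ≤ (3 / 4 : ℝ) ^ (x + (j + 1) + L) :=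
    D_le_of_free (by omega) (fun i hi hi' => hfree i (by omega) hi')
  have hDx := D_pos x
  have hDk := D_pos (j + 1 + y)
  have hDx1 := D_le (x + 1)
  have hDy := D_pos y
  -- powers
  obtain ⟨L', rfl⟩ : ∃ L', L = a' + L' := ⟨L - a', by omega⟩
  rw [Nat.add_sub_cancel_left] at hD
  obtain ⟨u, hu⟩ : ∃ u : ℝ, u = (3 / 4 : ℝ) ^ (x + (j + 1) + a') := ⟨_, rfl⟩
  have hu0 : 0 < u := by rw [hu]; positivity
  have eL : (3 / 4 : ℝ) ^ (x + (j + 1) + (a' + L')) = u * (3 / 4 : ℝ) ^ L' := by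
    rw [hu, ← pow_add, Nat.add_assoc (x + (j + 1))]
  rw [eL] at hDR
  rw [eL, ← hu] at hS
  have hL3 : (3 / 4 : ℝ) ^ L' ≤ 27 / 64 := by
    calc (3 / 4 : ℝ) ^ L' ≤ (3 / 4 : ℝ) ^ 3 :=
          pow_le_pow_of_le_one (by norm_num) (by norm_num) (by omega)
      _ = 27 / 64 := by norm_num
  have hL0 : (0 : ℝ) < (3 / 4 : ℝ) ^ L' := by positivity
  have hx1 : D (x + 1) * D (j + 1 + y) ≤ (3 / 4 : ℝ) ^ (x + 1) * D (j + 1 + y) :=
    mul_le_mul_of_nonneg_right hDx1 hDk.le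
  have hcomb : (u - u * (3 / 4 : ℝ) ^ L') * D y ≤ (3 / 4 : ℝ) ^ (x + 1) * D (j + 1 + y)
      + (3 / 2) * (u * (3 / 4 : ℝ) ^ L') := by
    have h1 : (0 : ℝ) < D x * D (j + 1 + y) := mul_pos hDx hDk
    nlinarith
  have hk1 : u * (27 / 64) * D y ≥ u * (3 / 4 : ℝ) ^ L' * D y := by
    apply mul_le_mul_of_nonneg_right _ hDy.le
    exact mul_le_mul_of_nonneg_left hL3 hu0.le
  have hk2 : u * (6 * (3 / 4 : ℝ) ^ L') ≤ u * D y := mul_le_mul_of_nonneg_left hD hu0.le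
  have hk3 : u * (21 / 64) * D y ≤ (3 / 4 : ℝ) ^ (x + 1) * D (j + 1 + y) := by
    nlinarith
  -- u = (3/4)^(x+1) * (3/4)^(j + a')
  have hu2 : u = (3 / 4 : ℝ) ^ (x + 1) * (3 / 4 : ℝ) ^ (j + a') := by
    rw [hu, ← pow_add]; congr 1; ring
  rw [hu2] at hk3
  have hx0 : (0 : ℝ) < (3 / 4 : ℝ) ^ (x + 1) := by positivity
  have hk4 : (3 / 4 : ℝ) ^ (j + a') * (21 / 64) * D y ≤ D (j + 1 + y) := by
    have : (3 / 4 : ℝ) ^ (x + 1) * ((3 / 4 : ℝ) ^ (j + a') * (21 / 64) * D y) ≤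
        (3 / 4 : ℝ) ^ (x + 1) * D (j + 1 + y) := by
      calc _ = (3 / 4 : ℝ) ^ (x + 1) * (3 / 4 : ℝ) ^ (j + a') * (21 / 64) * D y := by ring
        _ ≤ _ := hk3
    exact le_of_mul_le_mul_left this hx0
  refine le_trans ?_ hk4
  apply mul_le_mul_of_nonneg_right _ hDy.le
  have e5 : (3 / 4 : ℝ) ^ (j + 1 + a' + 4) = (3 / 4 : ℝ) ^ (j + a') * (3 / 4 : ℝ) ^ 5 := by
    rw [← pow_add]; congr 1; ring
  rw [e5]
  apply mul_le_mul_of_nonneg_left _ (by positivity)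
  norm_num

end Pool.Agent.helper74.FT
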